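import Pool.Agent.Q170.ZP.Core

/-!
The parity argument with exceptional sets of at most `m'` coordinates at `L` places,
`m + 1 < L (m + 1 - m')` (helper file; the proofs are those of `Pool.Agent.Q170.ZP.Comb` and
`Pool.Agent.Q170.ZP.Core`).
-/

set_option autoImplicit false

open Function UpperHalfPlane H294ZP MvPolynomial Pool.Agent.W466.ZC

namespace Pool.Agent.Q170.HD

open Pool.Agent.TH526.ZL Pool.Agent.Q170.ZP

/-- The existence of a nonempty set of pairs with even fibres. -/
theorem exists_even' {L n m m' : ℕ} {γ : Type} [DecidableEq γ]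
    (hL : m + 1 + L * m' < L * (m + 1))
    (Tt : Fin L → Finset (Fin n)) (hT : ∀ l, n ≤ (Tt l).card + m') (cls : Fin n → γ)
    (Fr : Finset γ) (hmaps : ∀ l, ∀ i ∈ Tt l, cls i ∈ Fr) (hF : Fr.card + m < n) :
    ∃ P : Finset (Fin L × Fin n), P.Nonempty ∧ (∀ x ∈ P, x.2 ∈ Tt x.1) ∧
      (∀ l c, Even (P.filter fun x => x.1 = l ∧ cls x.2 = c).card) ∧
      ∀ i, Even (P.filter fun x => x.2 = i).card := by
  classical
  let U : Finset (Fin n) := Finset.univ.filter fun i => cls i ∈ Fr
  let C : Finset γ := U.image cls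
  have hCF : C.card ≤ Fr.card := by
    refine Finset.card_le_card ?_
    intro c hc
    obtain ⟨i, hi, rfl⟩ := Finset.mem_image.1 hc
    exact (Finset.mem_filter.1 hi).2
  have hroot : ∀ c : C, ∃ i ∈ U, cls i = c := fun c => by
    obtain ⟨i, hi, h⟩ := Finset.mem_image.1 c.2
    exact ⟨i, hi, h⟩
  choose ρ hρU hρ using hroot
  have hρi : Function.Injective ρ := fun c c' h => Subtype.ext (by rw [← hρ c, ← hρ c', h])
  let Rt : Finset (Fin n) := Finset.univ.image ρ
  have hRtU : Rt ⊆ U := by
    intro i hi
    obtain ⟨c, -, rfl⟩ := Finset.mem_image.1 hi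
    exact hρU c
  have hRt : Rt.card = C.card := by
    rw [Finset.card_image_of_injective _ hρi, Finset.card_univ, Fintype.card_coe]
  let Non : Finset (Fin n) := U \ Rt
  have hNon : Non.card + C.card = U.card := by
    rw [← hRt]
    exact Finset.card_sdiff_add_card_eq_card hRtU
  have hUn : U.card ≤ n := by
    have := Finset.card_le_univ U
    rwa [Fintype.card_fin] at this
  let Idx : Finset (Fin L × Fin n) := Finset.univ.filter fun x => x.2 ∈ Tt x.1
  have hIdx : L * (n - m') ≤ Idx.card := by
    have h1 : Idx.card = ∑ l : Fin L, (Tt l).card := by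
      have h2 : Idx = (Finset.univ : Finset (Fin L)).biUnion fun l =>
          (Tt l).image fun i => (l, i) := by
        ext ⟨l, i⟩
        simp [Idx]
      rw [h2, Finset.card_biUnion]
      · refine Finset.sum_congr rfl fun l _ => ?_
        exact Finset.card_image_of_injective _ fun i j h => (Prod.mk.inj h).2
      · intro l _ l' _ hll
        rw [Function.onFun, Finset.disjoint_left]
        rintro x hx hx'
        obtain ⟨i, -, rfl⟩ := Finset.mem_image.1 hx
        obtain ⟨j, -, h⟩ := Finset.mem_image.1 hx'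
        exact hll (Prod.mk.inj h).1.symm
    rw [h1]
    calc L * (n - m') = ∑ _l : Fin L, (n - m') := by
          rw [Finset.sum_const, Finset.card_univ, Fintype.card_fin, smul_eq_mul]
      _ ≤ _ := Finset.sum_le_sum fun l _ => by
          have := hT l
          omega
  have hdim : Non.card + L * C.card < Idx.card := by
    refine lt_of_lt_of_le ?_ hIdx
    have hL0 : 0 < L := by
      rcases Nat.eq_zero_or_pos L with h | h
      · subst h
        simp at hL
      · exact h
    have hm' : m' < m + 1 := by
      by_contra h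
      push Not at h
      have := Nat.mul_le_mul_left L h
      omega
    obtain ⟨u, hu⟩ : ∃ u, m = m' + u := ⟨m - m', by omega⟩
    obtain ⟨a, ha⟩ : ∃ a, n = m + (Fr.card + (a + 1)) := ⟨n - m - Fr.card - 1, by omega⟩
    obtain ⟨c, hc⟩ : ∃ c, Fr.card = C.card + c := ⟨Fr.card - C.card, by omega⟩
    have h1 : n - m' = u + (C.card + c + (a + 1)) := by omega
    rw [h1]
    have h2 : Non.card ≤ m + (c + (a + 1)) := by omega
    have h3 : m + 1 < L * (u + 1) := by
      subst hu
      nlinarith
    obtain ⟨L', hL'⟩ : ∃ L', L = L' + 1 := ⟨L - 1, by omega⟩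
    subst hL'
    nlinarith [Nat.zero_le (L' * c), Nat.zero_le (L' * a)]
  -- the linear map
  let φ : (Idx → ZMod 2) →ₗ[ZMod 2] ((Non ⊕ (Fin L × C)) → ZMod 2) :=
    { toFun := fun f => Sum.elim (fun v => ∑ x : Idx, if x.1.2 = v then f x else 0)
        (fun lc => ∑ x : Idx, if x.1.1 = lc.1 ∧ cls x.1.2 = lc.2 then f x else 0)
      map_add' := by
        intro f g
        funext z
        rcases z with v | lc
        · simp only [Sum.elim_inl, Pi.add_apply]
          rw [← Finset.sum_add_distrib]
          refine Finset.sum_congr rfl fun x _ => ?_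
          split_ifs <;> simp
        · simp only [Sum.elim_inr, Pi.add_apply]
          rw [← Finset.sum_add_distrib]
          refine Finset.sum_congr rfl fun x _ => ?_
          split_ifs <;> simp
      map_smul' := by
        intro a f
        funext z
        rcases z with v | lc
        · simp only [Sum.elim_inl, Pi.smul_apply, smul_eq_mul, RingHom.id_apply, Finset.mul_sum]
          refine Finset.sum_congr rfl fun x _ => ?_
          split_ifs <;> simp
        · simp only [Sum.elim_inr, Pi.smul_apply, smul_eq_mul, RingHom.id_apply, Finset.mul_sum]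
          refine Finset.sum_congr rfl fun x _ => ?_
          split_ifs <;> simp }
  have hker : LinearMap.ker φ ≠ ⊥ := by
    refine LinearMap.ker_ne_bot_of_finrank_lt ?_
    rw [Module.finrank_fintype_fun_eq_card, Module.finrank_fintype_fun_eq_card,
      Fintype.card_sum, Fintype.card_prod, Fintype.card_fin, Fintype.card_coe, Fintype.card_coe,
      Fintype.card_coe]
    exact hdim
  obtain ⟨f, hf, hf0⟩ := (Submodule.ne_bot_iff _).1 hker
  have hz2 : ∀ z : ZMod 2, z ≠ 0 → z = 1 := by decide
  let P : Finset (Fin L × Fin n) := (Finset.univ.filter fun x : Idx => f x ≠ 0).image Subtype.val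
  have hPmem : ∀ x : Idx, (x : Fin L × Fin n) ∈ P ↔ f x ≠ 0 := by
    intro x
    constructor
    · intro h
      obtain ⟨y, hy, hyx⟩ := Finset.mem_image.1 h
      have : y = x := Subtype.ext hyx
      subst this
      exact (Finset.mem_filter.1 hy).2
    · intro h
      exact Finset.mem_image_of_mem _ (Finset.mem_filter.2 ⟨Finset.mem_univ _, h⟩)
  have hPI : ∀ x ∈ P, x ∈ Idx := by
    intro x hx
    obtain ⟨y, -, rfl⟩ := Finset.mem_image.1 hx
    exact y.2
  -- parity of the fibres
  have hpar : ∀ p : Fin L × Fin n → Prop, [DecidablePred p] →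
      (∑ x : Idx, if p x.1 then f x else 0) = 0 → Even (P.filter p).card := by
    intro p _ hp
    have h1 : (∑ x : Idx, if p x.1 then f x else 0) = ((P.filter p).card : ZMod 2) := by
      have h2 : (P.filter p) = (Finset.univ.filter fun x : Idx => f x ≠ 0 ∧ p x.1).image
          Subtype.val := by
        ext x
        simp only [Finset.mem_filter, Finset.mem_image]
        constructor
        · rintro ⟨hx, hpx⟩
          refine ⟨⟨x, hPI x hx⟩, ⟨Finset.mem_univ _, ?_, hpx⟩, rfl⟩
          exact (hPmem ⟨x, hPI x hx⟩).1 hx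
        · rintro ⟨y, ⟨-, hy1, hy2⟩, rfl⟩
          exact ⟨(hPmem y).2 hy1, hy2⟩
      rw [h2, Finset.card_image_of_injective _ Subtype.val_injective, Finset.card_filter,
        Nat.cast_sum]
      refine Finset.sum_congr rfl fun x _ => ?_
      by_cases hfx : f x = 0
      · simp [hfx]
      · by_cases hpx : p x.1
        · rw [if_pos hpx, if_pos ⟨hfx, hpx⟩, hz2 _ hfx]
          simp
        · rw [if_neg hpx, if_neg fun h => hpx h.2]
          simp
    rw [h1] at hp
    exact (ZMod.natCast_eq_zero_iff_even).1 hp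
  have hφ : ∀ z, φ f z = 0 := fun z => by rw [LinearMap.mem_ker.1 hf]; rfl
  have hlc : ∀ l c, Even (P.filter fun x => x.1 = l ∧ cls x.2 = c).card := by
    intro l c
    by_cases hc : c ∈ C
    · exact hpar _ (hφ (Sum.inr (l, ⟨c, hc⟩)))
    · have h1 : (P.filter fun x => x.1 = l ∧ cls x.2 = c) = ∅ := by
        refine Finset.filter_eq_empty_iff.2 ?_
        rintro x hx ⟨-, h⟩
        apply hc
        rw [← h]
        refine Finset.mem_image_of_mem _ (Finset.mem_filter.2 ⟨Finset.mem_univ _, ?_⟩)
        exact hmaps x.1 x.2 (Finset.mem_filter.1 (hPI x hx)).2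
      rw [h1]
      exact ⟨0, rfl⟩
  have hnon : ∀ i ∈ Non, Even (P.filter fun x => x.2 = i).card := by
    intro i hi
    exact hpar _ (hφ (Sum.inl ⟨i, hi⟩))
  refine ⟨P, ?_, fun x hx => (Finset.mem_filter.1 (hPI x hx)).2, hlc, ?_⟩
  · by_contra hne
    rw [Finset.not_nonempty_iff_eq_empty] at hne
    apply hf0
    funext x
    by_contra h
    have h1 := (hPmem x).2 h
    rw [hne] at h1
    exact absurd h1 (Finset.notMem_empty _)
  · intro i
    by_cases hiN : i ∈ Non
    · exact hnon i hiN
    by_cases hiU : i ∈ U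
    · have hiR : i ∈ Rt := by
        by_contra h
        exact hiN (Finset.mem_sdiff.2 ⟨hiU, h⟩)
      obtain ⟨c, -, hci⟩ := Finset.mem_image.1 hiR
      -- all points of the class
      have h1 : Even (P.filter fun x => cls x.2 = c).card := by
        have h2 : (P.filter fun x => cls x.2 = c).card =
            ∑ l : Fin L, (P.filter fun x => x.1 = l ∧ cls x.2 = c).card := by
          rw [Finset.card_eq_sum_card_fiberwise (f := Prod.fst) (t := Finset.univ)
            (fun _ _ => Finset.mem_coe.2 (Finset.mem_univ _))]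
          refine Finset.sum_congr rfl fun l _ => ?_
          rw [Finset.filter_filter]
          congr 1
          ext x
          rw [Finset.mem_filter, Finset.mem_filter]
          tauto
        rw [h2]
        exact Finset.even_sum _ fun l _ => hlc l c
      have h3 : (P.filter fun x => cls x.2 = c).card = (P.filter fun x => x.2 = i).card +
          ∑ v ∈ Non.filter fun v => cls v = c, (P.filter fun x => x.2 = v).card := by
        have h4 : (P.filter fun x => cls x.2 = c) = (P.filter fun x => x.2 = i) ∪
            (Non.filter fun v => cls v = c).biUnion fun v => P.filter fun x => x.2 = v := by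
          ext x
          rw [Finset.mem_union, Finset.mem_filter, Finset.mem_filter, Finset.mem_biUnion]
          constructor
          · rintro ⟨hx, hxc⟩
            by_cases hxi : x.2 = i
            · exact Or.inl ⟨hx, hxi⟩
            · right
              refine ⟨x.2, Finset.mem_filter.2 ⟨Finset.mem_sdiff.2 ⟨Finset.mem_filter.2
                ⟨Finset.mem_univ _, hmaps x.1 x.2 (Finset.mem_filter.1 (hPI x hx)).2⟩, ?_⟩, hxc⟩,
                Finset.mem_filter.2 ⟨hx, rfl⟩⟩
              intro h
              obtain ⟨c', -, hc'⟩ := Finset.mem_image.1 h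
              apply hxi
              have h5 : c' = c := Subtype.ext (by rw [← hρ c', hc', hxc])
              rw [← hc', h5, hci]
          · rintro (⟨hx, hxi⟩ | ⟨v, hv, hx⟩)
            · refine ⟨hx, ?_⟩
              rw [hxi, ← hci]
              exact hρ c
            · obtain ⟨hx, hxv⟩ := Finset.mem_filter.1 hx
              rw [← hxv] at hv
              exact ⟨hx, (Finset.mem_filter.1 hv).2⟩
        rw [h4, Finset.card_union_of_disjoint, Finset.card_biUnion]
        · intro v _ v' _ hvv
          rw [Function.onFun, Finset.disjoint_left]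
          intro x hx hx'
          exact hvv ((Finset.mem_filter.1 hx).2.symm.trans (Finset.mem_filter.1 hx').2)
        · rw [Finset.disjoint_left]
          intro x hx hx'
          obtain ⟨v, hv, hxv⟩ := Finset.mem_biUnion.1 hx'
          have h5 : v = i := (Finset.mem_filter.1 hxv).2.symm.trans (Finset.mem_filter.1 hx).2
          rw [h5] at hv
          exact hiN (Finset.mem_filter.1 hv).1
      have h6 : Even (∑ v ∈ Non.filter fun v => cls v = c, (P.filter fun x => x.2 = v).card) :=
        Finset.even_sum _ fun v hv => hnon v (Finset.mem_filter.1 hv).1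
      rw [h3] at h1
      exact (Nat.even_add.1 h1).2 h6
    · have h1 : (P.filter fun x => x.2 = i) = ∅ := by
        refine Finset.filter_eq_empty_iff.2 ?_
        rintro x hx rfl
        exact hiU (Finset.mem_filter.2 ⟨Finset.mem_univ _,
          hmaps x.1 x.2 (Finset.mem_filter.1 (hPI x hx)).2⟩)
      rw [h1]
      exact ⟨0, rfl⟩

/-- The contradiction from the relations at the places. -/
theorem no_rel' {L n m m' T : ℕ} {γ : Type} [DecidableEq γ]
    (hL : m + 1 + L * m' < L * (m + 1))
    (e : Fin L → Fin n → ℕ) (he : IndExp T e) (δ : Fin n → ℕ) (hδ : ∀ i, 0 < δ i)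
    (Tt : Fin L → Finset (Fin n)) (hT : ∀ l, n ≤ (Tt l).card + m') (cls : Fin n → γ)
    (Fr : Finset γ) (hmaps : ∀ l, ∀ i ∈ Tt l, cls i ∈ Fr) (hF : Fr.card + m < n)
    (hrel : ∀ l, ∀ i ∈ Tt l, ∀ j ∈ Tt l, i ≠ j → cls i = cls j →
      Sq T (δ i * δ j * (e l i * e l j))) : False := by
  classical
  obtain ⟨P, hP0, hPT, hlc, hv⟩ := exists_even' hL Tt hT cls Fr hmaps hF
  apply he.2 P hP0
  let w : Fin L × Fin n → ℕ := fun x => δ x.2 * e x.1 x.2
  have hw : ∀ x, 0 < w x := fun x => Nat.mul_pos (hδ _) (he.1 _ _)
  have h1 : Sq T (∏ x ∈ P, w x) := by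
    rw [← Finset.prod_fiberwise_of_maps_to (s := P)
      (t := P.image fun x => (x.1, cls x.2)) (g := fun x => (x.1, cls x.2))
      (fun x hx => Finset.mem_image_of_mem _ hx)]
    refine Sq.prod _ _ fun lc _ => ?_
    refine Sq.even _ w (fun x _ => hw x) ?_ ?_
    · have h2 : (P.filter fun x => (x.1, cls x.2) = lc) =
          (P.filter fun x => x.1 = lc.1 ∧ cls x.2 = lc.2) := by
        ext x
        rw [Finset.mem_filter, Finset.mem_filter, Prod.ext_iff]
      rw [h2]
      exact hlc _ _
    · rintro ⟨l, i⟩ hx ⟨l', j⟩ hy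
      obtain ⟨hx1, hx2⟩ := Finset.mem_filter.1 hx
      obtain ⟨hy1, hy2⟩ := Finset.mem_filter.1 hy
      rw [← hy2, Prod.ext_iff] at hx2
      obtain ⟨h3, h4⟩ := hx2
      simp only at h3 h4
      subst h3
      by_cases hij : i = j
      · subst hij
        exact Sq.sq T _
      · have h5 := hrel l i (hPT _ hx1) j (hPT _ hy1) hij h4
        have h6 : w (l, i) * w (l, j) = δ i * δ j * (e l i * e l j) := by
          simp only [w]
          ring
        rw [h6]
        exact h5
  have h2 : ∏ x ∈ P, w x = (∏ x ∈ P, δ x.2) * ∏ x ∈ P, e x.1 x.2 := Finset.prod_mul_distrib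
  rw [h2] at h1
  refine Sq.cancel (Finset.prod_pos fun x _ => hδ _) ?_ h1
  rw [← Finset.prod_fiberwise_of_maps_to (s := P) (t := Finset.univ) (g := fun x => x.2)
    (fun x _ => Finset.mem_univ _)]
  refine Sq.prod _ _ fun i _ => ?_
  refine Sq.even _ _ (fun x _ => hδ _) (hv i) ?_
  intro x hx y hy
  rw [(Finset.mem_filter.1 hx).2, (Finset.mem_filter.1 hy).2]
  exact Sq.sq T _

/-- The core, with conditions for the constants at the places only. -/
theorem coreW' {Λ : Type} [CommRing Λ] [IsDomain Λ] [Algebra Λ ℂ] {n m m' T L : ℕ}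
    (hL : m + 1 + L * m' < L * (m + 1))
    (R : Fin n → Polynomial (Polynomial Λ)) (hR : ∀ i, (R i).Monic)
    (hT : ∀ i u w, ((R i).coeff u).coeff w ≠ 0 → u ≤ T ∧ w ≤ T)
    (e : Fin L → Fin n → ℕ) (he : IndExp T e)
    {r : ℕ} (cls : Fin n → Option (Fin r)) (δ : Fin n → ℕ) (x s : Fin n → ℂ)
    (hδ : ∀ i, 0 < δ i)
    (hconst : ∀ i, cls i = none → IsAlgebraic Λ (x i))
    (hrel : ∀ i j l, cls i = some l → cls j = some l →
        IsIntegral (Algebra.adjoin ℤ {x i}) (x j) ∧
        Polynomial.eval₂ (Polynomial.aeval (x i) : Polynomial ℂ →ₐ[ℂ] ℂ).toRingHom (x j)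
          (W282.ZP.Psi (δ i * δ j)) = 0)
    (hRs : ∀ i, Polynomial.eval₂ (Polynomial.aeval (x i) : Polynomial Λ →ₐ[Λ] ℂ).toRingHom (s i)
      (R i) = 0)
    (S : Finset (Fin n)) (hS : AlgebraicIndependent Λ (fun i : S => x i))
    (V : Fin L → ValuationSubring ℂ) (g : ∀ l, (V l).ValueGroup)
    (hg : ∀ l, g l < 1)
    (hVc : ∀ l i, cls i = none → (V l).valuation (x i) ≤ 1)
    (hVR : ∀ l i u w, ((R i).coeff u).coeff w ≠ 0 →
      (V l).valuation (algebraMap Λ ℂ (((R i).coeff u).coeff w)) = 1)
    (hVx : ∀ l (i : S), x i ∈ V l)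
    (hgood : ∀ l, ∃ E : Finset (Fin n), E.card ≤ m' ∧ ∀ i, i ∉ E →
      (V l).valuation (s i) * g l ^ e l i = 1) :
    S.card + n ≤ r + m := by
  classical
  have hQ : ∀ i j, 0 < δ i * δ j := fun i j => Nat.mul_pos (hδ i) (hδ j)
  have hV1 : ∀ l i j k, cls i = some k → cls j = some k → (V l).valuation (x i) ≤ 1 →
      (V l).valuation (x j) ≤ 1 := by
    intro l i j k hi hj h1
    exact ((W282.ZP.Psi_spec (hQ i j)).2.2 ℂ (V l) (x i) (x j) (hrel i j k hi hj).2).1 h1
  have hSsome : ∀ t : S, ∃ k, cls t = some k := by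
    intro t
    cases hc : cls t with
    | none => exact ((hS.transcendental t) (hconst t hc)).elim
    | some k => exact ⟨k, rfl⟩
  choose cl hcl using hSsome
  have hclinj : Function.Injective cl := by
    intro t t' htt
    by_contra hne
    exact not_algInd' hS hne (hrel t t' (cl t) (hcl t) (by rw [htt]; exact hcl t')).1
  by_contra hcon
  push Not at hcon
  let Fr : Finset (Option (Fin r)) := (Finset.univ.filter fun k : Fin r =>
    k ∉ Finset.univ.image cl).image some
  have hFr : Fr.card + S.card = r := by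
    have h1 : Fr.card = (Finset.univ.filter fun k : Fin r =>
        k ∉ Finset.univ.image cl).card :=
      Finset.card_image_of_injective _ (Option.some_injective _)
    have h2 : (Finset.univ.filter fun k : Fin r => k ∈ Finset.univ.image cl).card = S.card := by
      have h3 : (Finset.univ.filter fun k : Fin r => k ∈ Finset.univ.image cl) =
          Finset.univ.image cl := by
        ext k; simp
      rw [h3, Finset.card_image_of_injective _ hclinj, Finset.card_univ, Fintype.card_coe]
    have := Finset.card_filter_add_card_filter_not (s := (Finset.univ : Finset (Fin r)))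
      (fun k => k ∈ Finset.univ.image cl)
    rw [Finset.card_univ, Fintype.card_fin] at this
    rw [h1]
    omega
  choose E hE hEg using hgood
  have hone_lt : ∀ l i, i ∉ E l → 1 < (V l).valuation (s i) := by
    intro l i hi
    by_contra hle
    push Not at hle
    have h1 : (V l).valuation (s i) * g l ^ e l i < 1 :=
      (mul_le_of_le_one_left' hle).trans_lt (pow_lt_one₀ zero_le (hg l) (he.1 l i).ne')
    rw [hEg l i hi] at h1
    exact lt_irrefl _ h1
  have htie := fun l i (hi : i ∉ E l) => tie (V l) (R i) (hR i) (hVR l i) (hT i) (hRs i)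
    (hone_lt l i hi)
  have hgt : ∀ l i, i ∉ E l → 1 < (V l).valuation (x i) := fun l i hi => (htie l i hi).1
  have hmaps : ∀ l, ∀ i ∈ (E l)ᶜ, cls i ∈ Fr := by
    intro l i hi
    have h1 := hgt l i (Finset.mem_compl.1 hi)
    cases hc : cls i with
    | none => exact absurd h1 (not_lt.2 (hVc l i hc))
    | some k =>
      refine Finset.mem_image_of_mem _ (Finset.mem_filter.2 ⟨Finset.mem_univ _, ?_⟩)
      intro hk
      obtain ⟨t, -, ht⟩ := Finset.mem_image.1 hk
      have h3 := hV1 l t i k (ht ▸ hcl t) hc
        ((ValuationSubring.valuation_le_one_iff _ _).2 (hVx l t))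
      exact absurd h1 (not_lt.2 h3)
  have hEc : ∀ l, (E l)ᶜ.card + (E l).card = n := by
    intro l
    have := Finset.card_compl_add_card (E l)
    rwa [Fintype.card_fin] at this
  refine no_rel' hL e he δ hδ (fun l => (E l)ᶜ) (fun l => ?_) cls Fr hmaps (by omega) ?_
  · have h1 := hEc l
    have h2 := hE l
    show n ≤ (E l)ᶜ.card + m'
    omega
  · intro l i hi j hj _ hcls
    have hi' := Finset.mem_compl.1 hi
    have hj' := Finset.mem_compl.1 hj
    obtain ⟨k, -, hk⟩ := Finset.mem_image.1 (hmaps l i hi)
    obtain ⟨h1, u, w, hu0, huT, hw0, hwT, huw⟩ := htie l i hi'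
    obtain ⟨-, u', w', hu0', huT', hw0', hwT', huw'⟩ := htie l j hj'
    exact ⟨u * w * (u' * w'), ((Smo.of_le hu0 huT).mul (Smo.of_le hw0 hwT)).mul
      ((Smo.of_le hu0' huT').mul (Smo.of_le hw0' hwT')),
      sq_tie' (hQ i j) (hrel i j k hk.symm (hcls ▸ hk.symm)).2 (V l) (hg l)
        (hEg l i hi') (hEg l j hj') h1 huw huw'⟩


end Pool.Agent.Q170.HD
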