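import Pool.Agent.Q170.ZP.MultiNear
import Pool.Agent.Q170.UM.StmM

/-!
# Project HD: families of subvarieties of `Y(1)^n` of any dimension `m` which degenerate along more
than `(m + 1) / 2` hypersurfaces (statements)

The member `X_t`, `t ∈ ℤ^r`, is the image of the projective set `B_t ⊆ P^N` under
`x_i = A_i / (c_i B_i)`. The forms have coefficients in `QA[t_1, …, t_r]`, `vf t y F` is the value of
such a form `F` at the parameter `t` and the vector `y`. `φ : ℂ →+* C` is an embedding in a complete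
algebraically closed `p`-adic field.
-/

set_option autoImplicit false
set_option linter.unusedSectionVars false

open UpperHalfPlane H294ZP MvPolynomial

namespace Pool.Agent.Q170.HD

open Pool.Agent.Y226 Pool.Agent.Y226.ZG Pool.Agent.Y226.ZM
open Pool.Agent.Q170.UM (MinLev)
open Pool.Agent.Q170.ZP.Multi (evM)

/-- forms in `y` with coefficients in `QA[t_1, …, t_r]` -/
abbrev Fo (r N : ℕ) : Type := MvPolynomial (Fin (N + 1)) (MvPolynomial (Fin r) QA)

/-- the value at the parameter `t` and the vector `y` -/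
noncomputable def vf {r N : ℕ} (t : Fin r → ℂ) (y : Fin (N + 1) → ℂ) (F : Fo r N) : ℂ :=
  eval₂ (evM QA t) y F

/-- the integral point `t` in `ℂ^r` -/
def tc {r : ℕ} (t : Fin r → ℤ) : Fin r → ℂ := fun j => (t j : ℂ)

/-- JOB HD-EMB. Embeddings of `ℂ` in a `p`-adic field with integral values of given algebraically
independent numbers. PROOF. Take `C = ℂ_[p]` (see `exists_padic`, `Pool.Agent.Y226.ZP.Emb`), it is an
algebra over the countable field `QA` (by `IsAlgClosed.lift`). `ℂ` and `C` have the cardinality of the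
continuum, so all transcendence bases of `ℂ` and of `C` over `QA` have the cardinality of the
continuum. Choose a transcendence basis `T` of `ℂ` over `QA` which contains the `x i`, `i ∈ S`
(`exists_isTranscendenceBasis_superset`), and a transcendence basis `U` of `C` over `QA` in the unit
ball `{u | ‖u‖ ≤ 1}` (every element of `C` is `p ^ (-k) u` with `u` in the unit ball, so `C` is
algebraic over the subalgebra generated by the unit ball; or multiply the elements of any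
transcendence basis by powers of `p`). A bijection from `T` to `U` defines an isomorphism of
`QA(T)` with `QA(U)`, which extends to an embedding (isomorphism) `φ : ℂ → C`
(`IsAlgClosed.equivOfTranscendenceBasis` or `IsAlgClosed.lift`). -/
def S_EMB : Prop := ∀ (p : ℕ) [Fact p.Prime] (n : ℕ) (x : Fin n → ℂ) (S : Finset (Fin n)),
  AlgebraicIndependent QA (fun i : S => x i) →
  ∃ (C : Type) (_ : NormedField C) (_ : IsUltrametricDist C) (_ : CompleteSpace C)
    (_ : CharZero C) (_ : IsAlgClosed C) (φ : ℂ →+* C), ‖(p : C)‖ = (p : ℝ)⁻¹ ∧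
    ∀ i ∈ S, ‖φ (x i)‖ ≤ 1

/-- JOB HD-CERT. Nullstellensatz certificates modulo `p`. PROOF. This is contained in the proof of
`Pool.Agent.Q170.ZP.Multi.goodP`: for each `j : Fin (N + 1)` the lemma `certP` (with `k = QA`,
`G` the empty family, the family `F` there consisting of `ipol QA D` and the `flat QA (F b)`,
`h = ipol QA E * X (Sum.inr j)`) gives `M` and `U b` with
`(E (t) y_j) ^ M = U_none (t, y) D (t) + ∑ b, U_b (t, y) F_b (t; y)` for all `t, y`. `W` consists of the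
coefficients of the `U` and of the `F b`. If `‖φ (F_b (t; y))‖ < 1` for all `b`, then the norm of the
right hand side is `< 1` (`D (t)` is an integer divisible by `p`), but for the `j` with
`‖φ (y_j)‖ = 1` the norm of the left hand side is `1` (`E (t)` is an integer not divisible by `p`). All
`‖φ (F_b (t; y))‖ ≤ 1` as the coefficients are in `W`. -/
def S_CERT : Prop := ∀ (r N : ℕ) (β : Type) [Fintype β] (F : β → Fo r N)
  (D E : MvPolynomial (Fin r) ℤ),
  (∀ t : Fin r → ℂ, aeval t D = 0 → aeval t E ≠ 0 → ∀ y : Fin (N + 1) → ℂ,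
    (∀ b, vf t y (F b) = 0) → y = 0) →
  ∃ W : Finset QA, ∀ (C : Type) [NormedField C] [IsUltrametricDist C] (p : ℕ) [Fact p.Prime]
    (φ : ℂ →+* C), ‖(p : C)‖ < 1 → (∀ w ∈ W, ‖φ (rA w)‖ ≤ 1) → ∀ t : Fin r → ℤ,
    (p : ℤ) ∣ eval t D → ¬ (p : ℤ) ∣ eval t E → ∀ y : Fin (N + 1) → ℂ, (∀ j, ‖φ (y j)‖ ≤ 1) →
    (∃ j, ‖φ (y j)‖ = 1) → ∃ b, ‖φ (vf (tc t) y (F b))‖ = 1

/-- JOB HD-FINR. Bounded fields of definition for the points of the strata of dimension zero.
PROOF. As for `S_CERT`, `certP` gives for each `j` a number `M` (take the same for all `j`, by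
multiplying with powers of `E (t) y_j`) and
`(E (t) y_j) ^ M = U_none (t, y) D (t) + ∑ b, U_b (t, y) F_b (t; y) + H_j (t, y) P₂ (t; y)`. Take the
homogeneous parts of degree `M` in the variables `y` (all `F b` and `P₂` are forms in `y`; compare
the coefficients of `λ ^ M` for `y ↦ λ y`, or use homogeneous components): we may assume that
`H_j` is a form of degree `M - δ` in `y` (`0` if `M < δ`), in particular of degree `< M` in `y`. `W`
consists of all coefficients. Let `k` be the residue field of `C` (`exists_residue2` in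
`Pool.Agent.Y226.ZG.Resid`), `ȳ_j`, `w̄` the residues, and let `𝔽 ⊆ k` be the finite field generated by
the residues of the elements of `W`: each `w ∈ W` is a zero of a primitive integral polynomial of degree
`d_w`, which is not zero modulo `p`, so `|𝔽| ≤ p ^ D₀`, `D₀ = ∏ d_w`. As `k` is algebraically closed
there is `λ` in `k` with `λ ^ δ P̄₂ (t; ȳ) = 1`; let `z = λ ȳ`. Then `P̄₂ (t; z) = 1`, `F̄_b (t; z) = 0`,
`D (t) = 0` and `E (t) ≠ 0` in `k`, so `z_j ^ M = (E (t)) ^ (-M) H̄_j (t; z)`. By induction on the degree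
all monomials in the `z_j` are in the `𝔽`-span of the monomials with all exponents smaller than `M`.
So `𝔽[z_0, …, z_N]` is a finite field with at most `|𝔽| ^ (M ^ (N + 1))` elements, and it contains
`P̄₁ (t; z) = P̄₁ (t; z) / P̄₂ (t; z) = P̄₁ (t; ȳ) / P̄₂ (t; ȳ) = ζ̄`. The residue `ζ̄` of the primitive
`g`-th root of unity has the order `g` (`g` is prime to `p`), so `g < |𝔽| ^ (M ^ (N + 1))`. -/
def S_FINR : Prop := ∀ (r N δ : ℕ), 0 < δ → ∀ (β : Type) [Fintype β] (F : β → Fo r N)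
  (P₁ P₂ : Fo r N) (D E : MvPolynomial (Fin r) ℤ), (∀ b, ∃ d, (F b).IsHomogeneous d) →
  P₁.IsHomogeneous δ → P₂.IsHomogeneous δ →
  (∀ t : Fin r → ℂ, aeval t D = 0 → aeval t E ≠ 0 → ∀ y : Fin (N + 1) → ℂ,
    (∀ b, vf t y (F b) = 0) → vf t y P₂ = 0 → y = 0) →
  ∃ (W : Finset QA) (D₁ : ℕ), ∀ (C : Type) [NormedField C] [IsUltrametricDist C]
    [CompleteSpace C] [CharZero C] [IsAlgClosed C] (p : ℕ) [Fact p.Prime] (φ : ℂ →+* C),
    0 < ‖(p : C)‖ → ‖(p : C)‖ < 1 → (∀ w ∈ W, ‖φ (rA w)‖ ≤ 1) → ∀ t : Fin r → ℤ,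
    (p : ℤ) ∣ eval t D → ¬ (p : ℤ) ∣ eval t E → ∀ y : Fin (N + 1) → ℂ, (∀ j, ‖φ (y j)‖ ≤ 1) →
    (∀ b, ‖φ (vf (tc t) y (F b))‖ < 1) → ‖φ (vf (tc t) y P₂)‖ = 1 →
    ∀ (g : ℕ) (ζ : C), 0 < g → g.Coprime p → IsPrimitiveRoot ζ g →
    ‖φ (vf (tc t) y P₁) / φ (vf (tc t) y P₂) - ζ‖ < 1 → g ≤ p ^ D₁

/-- JOB HD-PAIR. Two isogenous elliptic curves with multiplicative reduction: the minimal degree of a
cyclic isogeny. PROOF. Compare the proof of `Pool.Agent.Q170.PO.pairD` and `pairM`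
(`Pool.Agent.Q170.PO.Mx1`), which is the case of equal norms, for `QA` instead of `ℂ`. Apply
`tate_rel3` (`Pool.Agent.Y226.ZM.Tate3`) with `K₀ = ℂ`, `ρ` the identity, `i₀ = ιZ` and
`ψ = φ.comp ιZ` (`‖ψ z‖ ≤ 1` as the elements of `ZZ` are algebraic integers, see `psi_norm`), to a
matrix of determinant `N₀` from `modular_spec` (as in `pairM`): `qT (φ Y) ^ B = ζ qT (φ X) ^ A`,
`A`, `B` coprime. The norms (`qT_norm`) give `‖φ Y‖ ^ B = ‖φ X‖ ^ A`, and with
`‖φ Y‖ ^ b = ‖φ X‖ ^ a`, `1 < ‖φ X‖` this gives `A b = B a`, so `A = a`, `B = b`. By minimality of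
`N₀` (as in `pairM`) `N₀ = a b g ^ 2`, where `g` is the order of `ζ`. `root_decomp` splits
`ζ = ζ' ε`, `g = g' p ^ s`, `‖ε - 1‖ < 1`. By `qT_expand'` `qT ψ x * x` is near to one, so `ζ` is near to
`φ X ^ a / φ Y ^ b`. -/
def S_PAIR : Prop := ∀ (C : Type) [NormedField C] [IsUltrametricDist C] [CompleteSpace C]
  [CharZero C] [IsAlgClosed C] (p : ℕ) [Fact p.Prime] (φ : ℂ →+* C), 0 < ‖(p : C)‖ →
  ‖(p : C)‖ < 1 → ∀ X Y : ℂ, 1 < ‖φ X‖ → 1 < ‖φ Y‖ → ∀ a b : ℕ, 0 < a → 0 < b → a.Coprime b →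
  ‖φ Y‖ ^ b = ‖φ X‖ ^ a → ∀ N₀ : ℕ, MinLev N₀ X Y →
  ∃ (g s : ℕ) (ζ : C), 0 < g ∧ g.Coprime p ∧ IsPrimitiveRoot ζ g ∧
    N₀ = a * b * (g * p ^ s) ^ 2 ∧ ‖φ X ^ a / φ Y ^ b - ζ‖ < 1

/-- A chain of `T` prime factors of the integer `d`: each is larger than `Φ` of the smaller ones, and
does not divide the corresponding integers `E`. -/
def Chain (T : ℕ) (Φ : ℕ → ℕ) (d : ℤ) (E : ℕ → ℤ) : Prop := ∃ p : Fin T → ℕ,
  (∀ ν, (p ν).Prime ∧ (p ν : ℤ) ∣ d ∧ Φ 0 < p ν ∧ ¬ (p ν : ℤ) ∣ E 0) ∧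
  ∀ μ ν, μ < ν → Φ (p μ) < p ν ∧ ¬ (p ν : ℤ) ∣ E (p μ)

/-- JOB HD-CHAIN. Almost all integral points have chains. PROOF. For one prime factor:
`Pool.Agent.Q239.UZ.t_DEN` with `Pool.Agent.Q239.UZ.t_PRS`, `t_PTS`, `Pool.Agent.Q52.UZ.t_CRT`,
`Pool.Agent.Q239.UZ.t_ZER` is `Pool.Agent.Q170.UZ.S_DEN` (see its use in `dens_near`,
`Pool.Agent.Q170.UZ.Dens`, also for the polynomials `A`, `B`, `R`, `U`, `V`); apply it with `K = ℚ`
and the polynomials `D`, `E` over `ℚ`. It gives for each `Q`, `ε` numbers `B`, `H₀` such that for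
`H ≥ H₀` all `t` in the box with at most `ε (2 H + 1) ^ r` exceptions satisfy `D (t) ≠ 0`, and
`D (t)` has a prime factor `p` with `Q < p ≤ B` which does not divide `E (t)` (the cardinality of the
residue field is `≤ B`, so `p ≤ B`: `Pool.Agent.Q170.UZ.p_le_card`). Now use induction on `T` with
`ε / (T L)`: if the primes of index `< ν` are at most `B_ν`, take `Q = max_{q ≤ B_ν} Φ q` and
`E = ∏_{q ≤ B_ν} 𝓔 q` (coprime to `D`) for the next one; the bounds do not depend on `t`. -/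
def S_CHAIN : Prop := ∀ (r L T : ℕ) (D : Fin L → MvPolynomial (Fin r) ℤ)
  (𝓔 : Fin L → ℕ → MvPolynomial (Fin r) ℤ) (Φ : ℕ → ℕ),
  (∀ l, ∃ j, degreeOf j (D l) = 1) →
  (∀ l q, IsRelPrime (MvPolynomial.map (Int.castRingHom ℚ) (D l))
    (MvPolynomial.map (Int.castRingHom ℚ) (𝓔 l q))) →
  ∀ ε : ℝ, 0 < ε → ∃ H₀ : ℕ, ∀ H : ℕ, H₀ ≤ H →
  ({t : Fin r → ℤ | (∀ j, |t j| ≤ H) ∧ ¬ ∀ l, eval t (D l) ≠ 0 ∧
    Chain T Φ (eval t (D l)) fun q => eval t (𝓔 l q)}.ncard : ℝ) ≤ ε * (2 * H + 1) ^ r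

end Pool.Agent.Q170.HD
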