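import Pool.Agent.Q224.HD.ChainCore
import Pool.Agent.Q170.HD.St

/-!
# Project HD: the integral points with chains of prime factors contain many residue classes
-/

set_option autoImplicit false

open MvPolynomial

namespace Pool.Agent.Q170.HD

/-- a chain of bounded prime factors -/
def ChainB (T B : ℕ) (Φ : ℕ → ℕ) (d : ℤ) (E : ℕ → ℤ) : Prop := ∃ p : Fin T → ℕ,
  (∀ ν, p ν ≤ B) ∧
  (∀ ν, (p ν).Prime ∧ (p ν : ℤ) ∣ d ∧ Φ 0 < p ν ∧ ¬ (p ν : ℤ) ∣ E 0) ∧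
  ∀ μ ν, μ < ν → Φ (p μ) < p ν ∧ ¬ (p ν : ℤ) ∣ E (p μ)

theorem ChainB.chain {T B : ℕ} {Φ : ℕ → ℕ} {d : ℤ} {E : ℕ → ℤ} (h : ChainB T B Φ d E) :
    Chain T Φ d E := by
  obtain ⟨p, -, h1, h2⟩ := h
  exact ⟨p, h1, h2⟩

/-- values at congruent points are congruent -/
theorem dvd_eval_iff {r : ℕ} {Q p : ℕ} (hp : p ∣ Q) {t t' : Fin r → ℤ}
    (h : ∀ j, (t j : ZMod Q) = (t' j : ZMod Q)) (F : MvPolynomial (Fin r) ℤ) :
    (p : ℤ) ∣ eval t F ↔ (p : ℤ) ∣ eval t' F := by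
  have h1 : ∀ j, (t j : ZMod p) = (t' j : ZMod p) := by
    intro j
    have h2 := (ZMod.intCast_eq_intCast_iff_dvd_sub _ _ _).1 (h j)
    exact (ZMod.intCast_eq_intCast_iff_dvd_sub _ _ _).2
      (dvd_trans (by exact_mod_cast hp) h2)
  have h2 : ∀ s : Fin r → ℤ, ((eval s F : ℤ) : ZMod p) =
      eval₂ (Int.castRingHom (ZMod p)) (fun j => (s j : ZMod p)) F := by
    intro s
    have h3 := MvPolynomial.eval₂_comp_left (Int.castRingHom (ZMod p)) (RingHom.id ℤ) s F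
    rw [RingHom.comp_id] at h3
    exact h3
  rw [← ZMod.intCast_zmod_eq_zero_iff_dvd, ← ZMod.intCast_zmod_eq_zero_iff_dvd, h2, h2]
  rw [show (fun j => (t j : ZMod p)) = fun j => (t' j : ZMod p) from funext h1]

theorem ChainB.congr {r T B Q : ℕ} {Φ : ℕ → ℕ} (hQ : ∀ p, p.Prime → p ≤ B → p ∣ Q)
    {t t' : Fin r → ℤ} (h : ∀ j, (t j : ZMod Q) = (t' j : ZMod Q))
    (D : MvPolynomial (Fin r) ℤ) (𝓔 : ℕ → MvPolynomial (Fin r) ℤ)
    (hc : ChainB T B Φ (eval t D) fun q => eval t (𝓔 q)) :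
    ChainB T B Φ (eval t' D) fun q => eval t' (𝓔 q) := by
  obtain ⟨p, h0, h1, h2⟩ := hc
  have hd : ∀ ν, p ν ∣ Q := fun ν => hQ _ (h1 ν).1 (h0 ν)
  refine ⟨p, h0, fun ν => ⟨(h1 ν).1, (dvd_eval_iff (hd ν) h D).1 (h1 ν).2.1, (h1 ν).2.2.1,
    fun h3 => (h1 ν).2.2.2 ((dvd_eval_iff (hd ν) h _).2 h3)⟩, fun μ ν hμν =>
    ⟨(h2 μ ν hμν).1, fun h3 => (h2 μ ν hμν).2 ((dvd_eval_iff (hd ν) h _).2 h3)⟩⟩

/-- from boxes to residue classes -/
theorem card_classes {r Q : ℕ} [NeZero Q] (S : Finset (Fin r → ZMod Q)) (P : (Fin r → ℤ) → Prop)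
    (hP : ∀ t : Fin r → ℤ, (fun j => (t j : ZMod Q)) ∈ S → P t) (k : ℕ) :
    S.card * (2 * k) ^ r ≤
      {t : Fin r → ℤ | (∀ j, |t j| ≤ ((Q * k : ℕ) : ℤ)) ∧ P t}.ncard := by
  classical
  let f : (Fin r → ZMod Q) × (Fin r → Fin (2 * k)) → Fin r → ℤ := fun x j =>
    ((x.1 j).val : ℤ) + (Q : ℤ) * (((x.2 j : ℕ) : ℤ) - k)
  have hred : ∀ x, (fun j => ((f x j : ℤ) : ZMod Q)) = x.1 := by
    intro x
    funext j
    simp [f]
  have hinj : Function.Injective f := by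
    intro x y hxy
    have h1 : x.1 = y.1 := by
      rw [← hred x, ← hred y, hxy]
    refine Prod.ext h1 ?_
    funext j
    have h2 := congrFun hxy j
    simp only [f, h1] at h2
    have hQ : (Q : ℤ) ≠ 0 := by exact_mod_cast NeZero.ne Q
    have h3 : ((x.2 j : ℕ) : ℤ) - k = ((y.2 j : ℕ) : ℤ) - k :=
      mul_left_cancel₀ hQ (add_left_cancel h2)
    exact Fin.ext (by omega)
  have hcard : ((S ×ˢ (Finset.univ : Finset (Fin r → Fin (2 * k)))).image f).card =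
      S.card * (2 * k) ^ r := by
    rw [Finset.card_image_of_injective _ hinj, Finset.card_product, Finset.card_univ,
      Fintype.card_fun, Fintype.card_fin, Fintype.card_fin]
  rw [← hcard, ← Set.ncard_coe_finset]
  refine Set.ncard_le_ncard ?_ ?_
  · intro t ht
    obtain ⟨x, hx, rfl⟩ := Finset.mem_image.1 (Finset.mem_coe.1 ht)
    refine ⟨fun j => ?_, hP _ ?_⟩
    · have h1 : ((x.1 j).val : ℤ) < Q := by exact_mod_cast ZMod.val_lt (x.1 j)
      have h2 : (0 : ℤ) ≤ ((x.1 j).val : ℤ) := Int.natCast_nonneg _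
      have h3 : ((x.2 j : ℕ) : ℤ) + 1 ≤ 2 * k := by
        have := (x.2 j).2
        exact_mod_cast this
      have h4 : (0 : ℤ) ≤ ((x.2 j : ℕ) : ℤ) := Int.natCast_nonneg _
      have h5 : (0 : ℤ) ≤ Q := Int.natCast_nonneg _
      rw [abs_le]
      push_cast
      constructor
      · simp only [f]
        nlinarith
      · simp only [f]
        nlinarith
    · rw [hred]
      exact (Finset.mem_product.1 hx).1
  · refine (Finset.finite_toSet (Pool.Agent.Q170.ZP.Count.box r (Q * k))).subset ?_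
    rintro t ⟨ht, -⟩
    exact Finset.mem_coe.2 (Pool.Agent.Q170.ZP.Count.mem_box.2 ht)

/-- The integral points with chains contain residue classes of proportion near to one. -/
theorem chain_res (r L T : ℕ) (D : Fin L → MvPolynomial (Fin r) ℤ)
    (𝓔 : Fin L → ℕ → MvPolynomial (Fin r) ℤ) (Φ : ℕ → ℕ)
    (hdeg : ∀ l, ∃ j, degreeOf j (D l) = 1)
    (hrel : ∀ l q, IsRelPrime (MvPolynomial.map (Int.castRingHom ℚ) (D l))
      (MvPolynomial.map (Int.castRingHom ℚ) (𝓔 l q))) (ε : ℝ) (hε : 0 < ε) :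
    ∃ (Q : ℕ) (R : Set (Fin r → ZMod Q)), 0 < Q ∧ (1 - ε) * (Q : ℝ) ^ r ≤ R.ncard ∧
      ∀ t : Fin r → ℤ, (fun j => (t j : ZMod Q)) ∈ R →
        ∀ l, Chain T Φ (eval t (D l)) fun q => eval t (𝓔 l q) := by
  classical
  choose j hj using hdeg
  obtain ⟨c, hc⟩ : ∃ c : ℝ, c = ε * (2 / 3) ^ r / (L + 1) := ⟨_, rfl⟩
  have hc0 : 0 < c := by
    rw [hc]
    positivity
  choose B H₀ hB using fun l => Pool.Agent.Q224.HD.chain_bdd (D l) (𝓔 l) Φ (j l) (hj l) (hrel l) T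
    c hc0
  obtain ⟨Q, hQ⟩ : ∃ Q, Q = (∑ l, B l).factorial := ⟨_, rfl⟩
  have hQ0 : 0 < Q := hQ ▸ Nat.factorial_pos _
  have : NeZero Q := ⟨hQ0.ne'⟩
  have hQd : ∀ l p, p.Prime → p ≤ B l → p ∣ Q := by
    intro l p hp hpB
    rw [hQ]
    exact Nat.dvd_factorial hp.pos
      (hpB.trans (Finset.single_le_sum (fun _ _ => Nat.zero_le _) (Finset.mem_univ l)))
  let Good : Fin L → (Fin r → ZMod Q) → Prop := fun l a => ∃ t : Fin r → ℤ,
    (fun j => (t j : ZMod Q)) = a ∧ ChainB T (B l) Φ (eval t (D l)) fun q => eval t (𝓔 l q)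
  have hGood : ∀ l (t : Fin r → ℤ), Good l (fun j => (t j : ZMod Q)) →
      ChainB T (B l) Φ (eval t (D l)) fun q => eval t (𝓔 l q) := by
    rintro l t ⟨t', h1, h2⟩
    exact h2.congr (hQd l) (fun j => congrFun h1 j) _ _
  let Bad : Fin L → Finset (Fin r → ZMod Q) := fun l => Finset.univ.filter fun a => ¬ Good l a
  have hQr : (0 : ℝ) < Q := by exact_mod_cast hQ0
  have hbad : ∀ l, ((Bad l).card : ℝ) ≤ ε / (L + 1) * (Q : ℝ) ^ r := by
    intro l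
    obtain ⟨k, hk⟩ : ∃ k, k = max (H₀ l) 1 := ⟨_, rfl⟩
    have hk1 : 1 ≤ k := hk ▸ le_max_right _ _
    have hkH : H₀ l ≤ Q * k := (hk ▸ le_max_left _ _ : H₀ l ≤ k).trans
      (Nat.le_mul_of_pos_left _ hQ0)
    have h1 := card_classes (Bad l) (fun t => ¬ (eval t (D l) ≠ 0 ∧ ∃ p : Fin T → ℕ,
        (∀ ν, p ν ≤ B l) ∧
        (∀ ν, (p ν).Prime ∧ (p ν : ℤ) ∣ eval t (D l) ∧ Φ 0 < p ν ∧
          ¬ (p ν : ℤ) ∣ eval t (𝓔 l 0)) ∧
        ∀ μ ν, μ < ν → Φ (p μ) < p ν ∧ ¬ (p ν : ℤ) ∣ eval t (𝓔 l (p μ)))) (by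
          intro t ht h2
          exact (Finset.mem_filter.1 ht).2 ⟨t, rfl, h2.2⟩) k
    have h2 := hB l (Q * k) hkH
    have h3 : (((Bad l).card * (2 * k) ^ r : ℕ) : ℝ) ≤ c * (2 * ((Q * k : ℕ) : ℝ) + 1) ^ r :=
      le_trans (by exact_mod_cast h1) h2
    have hkr : (1 : ℝ) ≤ k := by exact_mod_cast hk1
    have hQ1 : (1 : ℝ) ≤ Q := by exact_mod_cast hQ0
    have h4 : (2 * ((Q * k : ℕ) : ℝ) + 1) ^ r ≤ (3 * (Q * k)) ^ r := by
      refine pow_le_pow_left₀ (by positivity) ?_ _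
      push_cast
      nlinarith
    have h5 : ((Bad l).card : ℝ) * (2 * k) ^ r ≤ c * (3 * (Q * k)) ^ r := by
      refine le_trans ?_ (h3.trans (mul_le_mul_of_nonneg_left h4 hc0.le))
      push_cast
      exact le_rfl
    have h6 : c * (3 * ((Q : ℝ) * k)) ^ r = ε / (L + 1) * (Q : ℝ) ^ r * (2 * k) ^ r := by
      rw [hc, mul_pow, mul_pow, mul_pow, div_pow]
      field_simp
    rw [h6] at h5
    exact le_of_mul_le_mul_right h5 (by positivity)
  refine ⟨Q, {a | ∀ l, Good l a}, hQ0, ?_, fun t ht l => (hGood l t (ht l)).chain⟩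
  have hset : ({a : Fin r → ZMod Q | ∀ l, Good l a} : Set (Fin r → ZMod Q)) =
      ((Finset.univ \ Finset.univ.biUnion Bad : Finset (Fin r → ZMod Q)) :
        Set (Fin r → ZMod Q)) := by
    ext a
    simp [Bad]
  rw [hset, Set.ncard_coe_finset]
  have h7 : (Finset.univ \ Finset.univ.biUnion Bad : Finset (Fin r → ZMod Q)).card +
      (Finset.univ.biUnion Bad).card = Q ^ r := by
    rw [Finset.card_sdiff_add_card_eq_card (Finset.subset_univ _), Finset.card_univ,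
      Fintype.card_fun, ZMod.card, Fintype.card_fin]
  have h8 : ((Finset.univ.biUnion Bad).card : ℝ) ≤ ε * (Q : ℝ) ^ r := by
    calc ((Finset.univ.biUnion Bad).card : ℝ) ≤ ((∑ l, (Bad l).card : ℕ) : ℝ) := by
          exact_mod_cast Finset.card_biUnion_le
      _ = ∑ l, ((Bad l).card : ℝ) := by push_cast; rfl
      _ ≤ ∑ _l : Fin L, ε / (L + 1) * (Q : ℝ) ^ r := Finset.sum_le_sum fun l _ => hbad l
      _ = (L : ℝ) * (ε / (L + 1) * (Q : ℝ) ^ r) := by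
          rw [Finset.sum_const, Finset.card_univ, Fintype.card_fin, nsmul_eq_mul]
      _ ≤ ε * (Q : ℝ) ^ r := by
          have h9 : (L : ℝ) * (ε / (L + 1)) ≤ ε := by
            rw [mul_div_assoc', div_le_iff₀ (by positivity)]
            nlinarith
          calc (L : ℝ) * (ε / (L + 1) * (Q : ℝ) ^ r) = (L : ℝ) * (ε / (L + 1)) * (Q : ℝ) ^ r := by
                ring
            _ ≤ _ := mul_le_mul_of_nonneg_right h9 (by positivity)
  have h10 : ((Finset.univ \ Finset.univ.biUnion Bad : Finset (Fin r → ZMod Q)).card : ℝ) +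
      ((Finset.univ.biUnion Bad).card : ℝ) = (Q : ℝ) ^ r := by exact_mod_cast h7
  nlinarith

end Pool.Agent.Q170.HD
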