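import Pool.Agent.Q212.HD.Span
import Pool.Agent.W466.CF
import Pool.Agent.Y226.ZP.Emb

/-!
# Project HD: the quotient of two forms has finitely many values on a finite set given by equations
-/

set_option autoImplicit false

open MvPolynomial

namespace Pool.Agent.Q170.HD

open Pool.Agent.Y226 Pool.Agent.Q212.HD

/-- The quotient `P₁ / P₂` of two forms has finitely many values, which are algebraic, at the zeros of
the forms `F b` if these and `P₂` have no common zero. -/
theorem fin_values {N δ : ℕ} (hδ : 0 < δ) {β : Type} [Fintype β]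
    (F : β → MvPolynomial (Fin (N + 1)) QA) (hF : ∀ b, ∃ d, (F b).IsHomogeneous d)
    (P₁ P₂ : MvPolynomial (Fin (N + 1)) QA) (h1 : P₁.IsHomogeneous δ) (h2 : P₂.IsHomogeneous δ)
    (hs : ∀ y : Fin (N + 1) → ℂ, (∀ b, aeval y (F b) = 0) → aeval y P₂ = 0 → y = 0) :
    ∃ χ : Polynomial QA, χ.Monic ∧ ∀ y : Fin (N + 1) → ℂ, (∀ b, aeval y (F b) = 0) →
      aeval y P₂ ≠ 0 → Polynomial.aeval (aeval y P₁ / aeval y P₂) χ = 0 := by
  classical
  -- the certificates
  obtain ⟨M, U, hU⟩ := Pool.Agent.W466.ZC.cert' (k := QA)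
    (fun a : Empty => (a.elim : MvPolynomial (Fin (N + 1)) QA))
    (fun o : Option β => o.elim P₂ F) (by
      intro y _ hy
      exact hs y (fun b => hy (some b)) (hy none))
  have hid : ∀ j, (X j : MvPolynomial (Fin (N + 1)) QA) ^ (M + 1) =
      (X j * U j none) * P₂ + ∑ b, (X j * U j (some b)) * F b := by
    intro j
    have hmap : Function.Injective
        (MvPolynomial.map (algebraMap QA ℂ) : MvPolynomial (Fin (N + 1)) QA → _) :=
      MvPolynomial.map_injective _ (algebraMap QA ℂ).injective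
    apply hmap
    apply MvPolynomial.funext
    intro y
    have h3 := hU y (fun a => a.elim) j
    rw [Fintype.sum_option] at h3
    simp only [Option.elim_none, Option.elim_some] at h3
    have e1 : ∀ P : MvPolynomial (Fin (N + 1)) QA,
        eval y (MvPolynomial.map (algebraMap QA ℂ) P) = aeval y P := by
      intro P
      rw [eval_map, aeval_def]
    rw [e1, e1, map_pow, aeval_X, pow_succ, h3, map_add, map_mul, map_mul, aeval_X, map_sum,
      add_mul, Finset.sum_mul]
    congr 1
    · ring
    · refine Finset.sum_congr rfl fun b _ => ?_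
      rw [map_mul, map_mul, aeval_X]
      ring
  -- the ring
  let J : Ideal (MvPolynomial (Fin (N + 1)) QA) := Ideal.span (Set.range F ∪ {P₂ - 1})
  let A := MvPolynomial (Fin (N + 1)) QA ⧸ J
  let π : MvPolynomial (Fin (N + 1)) QA →ₐ[QA] A := Ideal.Quotient.mkₐ QA J
  let z : Fin (N + 1) → A := fun j => π (X j)
  have hπ : ∀ P, eval₂ (algebraMap QA A) z P = π P := by
    intro P
    have h3 : (aeval z : MvPolynomial (Fin (N + 1)) QA →ₐ[QA] A) = π := by
      refine MvPolynomial.algHom_ext fun i => ?_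
      rw [aeval_X]
    rw [← h3, aeval_def]
  have hπF : ∀ b, π (F b) = 0 := fun b =>
    Ideal.Quotient.eq_zero_iff_mem.2 (Ideal.subset_span (Or.inl ⟨b, rfl⟩))
  have hπP : π P₂ = 1 := by
    have h3 : π (P₂ - 1) = 0 :=
      Ideal.Quotient.eq_zero_iff_mem.2 (Ideal.subset_span (Or.inr rfl))
    rw [map_sub, map_one] at h3
    exact sub_eq_zero.1 h3
  let Qp : Fin (N + 1) → MvPolynomial (Fin (N + 1)) QA := fun j =>
    if δ ≤ M + 1 then homogeneousComponent (M + 1 - δ) (X j * U j none) else 0
  have hQd : ∀ j, (Qp j).totalDegree < M + 1 := by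
    intro j
    simp only [Qp]
    split_ifs with h
    · have h3 := (homogeneousComponent_isHomogeneous (M + 1 - δ) (X j * U j none)).totalDegree_le
      omega
    · rw [totalDegree_zero]
      omega
  have hz : ∀ j, z j ^ (M + 1) = aeval z (Qp j) := by
    intro j
    have h3 := compare (algebraMap QA A) z (δ := δ) (M := M + 1) j (1 : QA) F P₂ hF h2
      (fun b => X j * U j (some b)) 0 (X j * U j none) 0 (by
        rw [map_one, one_mul, zero_mul, zero_add]
        exact hid j) (map_zero _) (fun b => by rw [hπ, hπF]) (by rw [hπ, hπP])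
    rw [map_one, one_mul] at h3
    rw [h3]
    simp only [Qp]
    split_ifs
    · rw [aeval_def]
    · rw [map_zero]
  have hspan := mo_mem (R := QA) z (fun _ => M + 1) Qp hQd hz
  have htop : Submodule.span QA (Set.range fun c : (Fin (N + 1) → Fin (M + 1)) =>
      mo z fun i => (c i : ℕ)) = ⊤ := by
    rw [eq_top_iff]
    rintro a -
    obtain ⟨P, rfl⟩ := Ideal.Quotient.mk_surjective a
    change π P ∈ _
    induction P using MvPolynomial.induction_on' with
    | monomial u c =>
      have h3 : π (monomial u c) = c • mo z (⇑u) := by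
        rw [← hπ, eval₂_monomial, Finsupp.prod_fintype _ _ (by simp)]
        exact (Algebra.smul_def (A := A) c (mo z (⇑u))).symm
      rw [h3]
      exact Submodule.smul_mem _ _ (hspan _ _ rfl)
    | add p q hp hq =>
      rw [map_add]
      exact Submodule.add_mem _ hp hq
  have hfin : Module.Finite QA A := by
    refine ⟨⟨(Set.finite_range fun c : (Fin (N + 1) → Fin (M + 1)) =>
      mo z fun i => (c i : ℕ)).toFinset, ?_⟩⟩
    rw [Set.Finite.coe_toFinset]
    exact htop
  obtain ⟨χ, hχ, hχ0⟩ := (Algebra.IsIntegral.of_finite QA A).isIntegral (π P₁)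
  refine ⟨χ, hχ, fun y hyF hyP => ?_⟩
  obtain ⟨lam, hlam⟩ := IsAlgClosed.exists_pow_nat_eq (aeval y P₂)⁻¹ hδ
  have hker : ∀ a ∈ J, (aeval (lam • y) : MvPolynomial (Fin (N + 1)) QA →ₐ[QA] ℂ) a = 0 := by
    have h3 : J ≤ RingHom.ker (aeval (lam • y) : MvPolynomial (Fin (N + 1)) QA →ₐ[QA] ℂ) := by
      rw [Ideal.span_le]
      rintro _ (⟨b, rfl⟩ | h4)
      · obtain ⟨d, hd⟩ := hF b
        rw [SetLike.mem_coe, RingHom.mem_ker, Pool.Agent.W466.ZC.aeval_smul' hd, hyF b, mul_zero]
      · rw [Set.mem_singleton_iff] at h4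
        rw [SetLike.mem_coe, RingHom.mem_ker, h4, map_sub, map_one,
          Pool.Agent.W466.ZC.aeval_smul' h2, hlam, inv_mul_cancel₀ hyP, sub_self]
    exact fun a ha => h3 ha
  let ev : A →ₐ[QA] ℂ := Ideal.Quotient.liftₐ J (aeval (lam • y)) hker
  have hev : ev (π P₁) = aeval y P₁ / aeval y P₂ := by
    have h3 : ev (π P₁) = aeval (lam • y) P₁ := Ideal.Quotient.liftₐ_apply J _ hker _
    rw [h3, Pool.Agent.W466.ZC.aeval_smul' h1, hlam]
    field_simp
  rw [← hev, Polynomial.aeval_algHom_apply]
  rw [← Polynomial.aeval_def] at hχ0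
  rw [hχ0, map_zero]

end Pool.Agent.Q170.HD
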