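import Pool.Agent.Q208.HD.Cert

/-!
# Project HD: the data at one prime near to a degenerate member
-/

set_option autoImplicit false

open MvPolynomial

namespace Pool.Agent.Q170.HD

open Pool.Agent.Y226 Pool.Agent.Q208.HD
open Pool.Agent.Q170.UM (MinLev)
open Pool.Agent.Q170.ZP.Multi (evM ev_smul evM_int evM_apply aeval_flat flat)

section basic

variable {r N : ℕ} (t : Fin r → ℂ) (y : Fin (N + 1) → ℂ)

theorem vf_mul (P Q : Fo r N) : vf t y (P * Q) = vf t y P * vf t y Q := eval₂_mul _ _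
theorem vf_sub (P Q : Fo r N) : vf t y (P - Q) = vf t y P - vf t y Q := by
  unfold vf
  exact map_sub (eval₂Hom (evM QA t) y) P Q
theorem vf_pow (P : Fo r N) (k : ℕ) : vf t y (P ^ k) = vf t y P ^ k := by
  unfold vf
  exact map_pow (eval₂Hom (evM QA t) y) P k
theorem vf_C (q : MvPolynomial (Fin r) QA) : vf t y (C q) = evM QA t q := eval₂_C _ _ _

variable {t y}

theorem vf_smul {P : Fo r N} {k : ℕ} (hP : P.IsHomogeneous k) (c : ℂ) :
    vf t (c • y) P = c ^ k * vf t y P := ev_smul t hP c y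

end basic

theorem vf_bound {r N : ℕ} (P : Fo r N) : ∃ W : Finset QA, ∀ (C : Type) [NormedField C]
    [IsUltrametricDist C] (φ : ℂ →+* C), (∀ w ∈ W, ‖φ (rA w)‖ ≤ 1) → ∀ (t : Fin r → ℤ)
    (y : Fin (N + 1) → ℂ), (∀ j, ‖φ (y j)‖ ≤ 1) → ‖φ (vf (tc t) y P)‖ ≤ 1 := by
  classical
  refine ⟨(flat QA P).support.image (fun u => (flat QA P).coeff u), ?_⟩
  intro C _ _ φ hW t y hy
  have h1 := aeval_ball (φ := φ) (flat QA P) (fun u hu => hW _ (Finset.mem_image_of_mem _ hu))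
    (Sum.elim (tc t) y) (by
      intro i
      rcases i with i | i
      · simp only [Sum.elim_inl, tc, mem_ball]
        rw [map_intCast]
        exact norm_int_le _
      · exact hy i)
  rw [aeval_flat] at h1
  exact h1

/-- powers of near elements are near -/
theorem pow_near {C : Type} [NormedField C] [IsUltrametricDist C] {u ζ : C} (hu : ‖u‖ ≤ 1)
    (hζ : ‖ζ‖ ≤ 1) (h : ‖u - ζ‖ < 1) (M : ℕ) : ‖u ^ M - ζ ^ M‖ < 1 := by
  induction M with
  | zero => simp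
  | succ M ih =>
    have h1 : u ^ (M + 1) - ζ ^ (M + 1) = u ^ M * (u - ζ) + (u ^ M - ζ ^ M) * ζ := by ring
    rw [h1]
    refine (IsUltrametricDist.norm_add_le_max _ _).trans_lt (max_lt ?_ ?_)
    · rw [norm_mul, norm_pow]
      exact (mul_le_of_le_one_left (norm_nonneg _) (pow_le_one₀ (norm_nonneg _) hu)).trans_lt h
    · rw [norm_mul]
      exact (mul_le_of_le_one_right (norm_nonneg _) hζ).trans_lt ih

/-- The data at one prime near to the hypersurface `D = 0`. -/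
theorem locA (hCERT : S_CERT) (hFINR : S_FINR) (hPAIR : S_PAIR) {r N n m : ℕ} {κ : Type}
    [Fintype κ] (G : κ → Fo r N) (hG : ∀ k, ∃ f, (G k).IsHomogeneous f)
    (A B : Fin n → Fo r N) (d : Fin n → ℕ) (hd : ∀ i, 0 < d i)
    (hA : ∀ i, (A i).IsHomogeneous (d i)) (hB : ∀ i, (B i).IsHomogeneous (d i))
    (b c : Fin n → MvPolynomial (Fin r) QA) (D E : MvPolynomial (Fin r) ℤ)
    (e : Fin n → ℕ) (he : ∀ i, 0 < e i)
    (hc : ∀ i, c i = MvPolynomial.map (Int.castRingHom QA) D ^ e i * b i)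
    (hpos : ∀ t : Fin r → ℂ, aeval t D = 0 → aeval t E ≠ 0 →
      (∀ I : Finset (Fin n), I.card = m + 1 → ∀ y : Fin (N + 1) → ℂ,
        (∀ k, vf t y (G k) = 0) → (∀ i ∈ I, vf t y (A i) * vf t y (B i) = 0) → y = 0) ∧
      ∀ i, evM QA t (b i) ≠ 0)
    (Fm : ℕ → MvPolynomial (Fin r) ℤ)
    (hres : ∀ M : ℕ, 0 < M → ∀ t : Fin r → ℂ, aeval t D = 0 → aeval t E ≠ 0 →
      aeval t (Fm M) ≠ 0 → ∀ I : Finset (Fin n), I.card = m → ∀ i j : Fin n, i ∉ I → j ∉ I →
      i ≠ j → ∀ y : Fin (N + 1) → ℂ, y ≠ 0 → (∀ k, vf t y (G k) = 0) →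
      (∀ k ∈ I, vf t y (A k) * vf t y (B k) = 0) →
      (vf t y (A i) ^ e j * (evM QA t (b j) * vf t y (B j)) ^ e i) ^ M ≠
        (vf t y (A j) ^ e i * (evM QA t (b i) * vf t y (B i)) ^ e j) ^ M) :
    ∃ (W : Finset QA) (D₁ : ℕ) (WM : ℕ → Finset QA), ∀ (C : Type) [NormedField C]
      [IsUltrametricDist C] [CompleteSpace C] [CharZero C] [IsAlgClosed C] (p : ℕ)
      [Fact p.Prime] (φ : ℂ →+* C), 0 < ‖(p : C)‖ → ‖(p : C)‖ < 1 →
      (∀ w ∈ W, ‖φ (rA w)‖ ≤ 1) → ∀ t : Fin r → ℤ, (p : ℤ) ∣ eval t D →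
      ¬ (p : ℤ) ∣ eval t E → ∀ (x : Fin n → ℂ) (y : Fin (N + 1) → ℂ), y ≠ 0 →
      (∀ k, vf (tc t) y (G k) = 0) →
      (∀ i, evM QA (tc t) (c i) * vf (tc t) y (B i) * x i = vf (tc t) y (A i)) →
      ∃ E' : Finset (Fin n), E'.card ≤ m ∧
        (∀ i, i ∉ E' → ‖φ (x i)‖ * ‖φ (aeval (tc t) D)‖ ^ e i = 1) ∧
        (E'.card = m → ∀ i j, i ∉ E' → j ∉ E' → i ≠ j → ∀ N₀, MinLev N₀ (x i) (x j) →
          ∃ g s : ℕ, 0 < g ∧ g.Coprime p ∧
            N₀ = (e j / Nat.gcd (e i) (e j)) * (e i / Nat.gcd (e i) (e j)) * (g * p ^ s) ^ 2 ∧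
            g ≤ p ^ D₁ ∧ ∀ M, 0 < M → (∀ w ∈ WM M, ‖φ (rA w)‖ ≤ 1) →
              ¬ (p : ℤ) ∣ eval t (Fm M) → ¬ g ∣ M) := by
  classical
  -- the exponents
  let ea : Fin n → Fin n → ℕ := fun i j => e j / Nat.gcd (e i) (e j)
  let eb : Fin n → Fin n → ℕ := fun i j => e i / Nat.gcd (e i) (e j)
  have hg0 : ∀ i j, 0 < Nat.gcd (e i) (e j) := fun i j => Nat.gcd_pos_of_pos_left _ (he i)
  have hea : ∀ i j, e j = Nat.gcd (e i) (e j) * ea i j := fun i j =>
    (Nat.mul_div_cancel' (Nat.gcd_dvd_right _ _)).symm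
  have heb : ∀ i j, e i = Nat.gcd (e i) (e j) * eb i j := fun i j =>
    (Nat.mul_div_cancel' (Nat.gcd_dvd_left _ _)).symm
  have hea0 : ∀ i j, 0 < ea i j := fun i j => by
    rcases Nat.eq_zero_or_pos (ea i j) with h | h
    · have := hea i j
      rw [h, mul_zero] at this
      exact absurd this (he j).ne'
    · exact h
  have heb0 : ∀ i j, 0 < eb i j := fun i j => by
    rcases Nat.eq_zero_or_pos (eb i j) with h | h
    · have := heb i j
      rw [h, mul_zero] at this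
      exact absurd this (he i).ne'
    · exact h
  have hcop : ∀ i j, (ea i j).Coprime (eb i j) := fun i j =>
    (Nat.coprime_div_gcd_div_gcd (hg0 i j)).symm
  have hexp : ∀ i j, e i * ea i j = e j * eb i j := fun i j => by
    calc e i * ea i j = (Nat.gcd (e i) (e j) * eb i j) * ea i j := by rw [← heb]
      _ = (Nat.gcd (e i) (e j) * ea i j) * eb i j := by ring
      _ = e j * eb i j := by rw [← hea]
  have key1 : ∀ (i j : Fin n) (u v : ℂ), u ^ e j * v ^ e i =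
      (u ^ ea i j * v ^ eb i j) ^ Nat.gcd (e i) (e j) := by
    intro i j u v
    rw [mul_pow, ← pow_mul, ← pow_mul, mul_comm (ea i j), mul_comm (eb i j), ← hea i j, ← heb i j]
  have key2 : ∀ (i j : Fin n) (u v : ℂ), u ^ e i * v ^ e j =
      (u ^ eb i j * v ^ ea i j) ^ Nat.gcd (e i) (e j) := by
    intro i j u v
    rw [mul_pow, ← pow_mul, ← pow_mul, mul_comm (ea i j), mul_comm (eb i j), ← hea i j, ← heb i j]
  let P₁ : Fin n → Fin n → Fo r N := fun i j => A i ^ ea i j * (C (b j) * B j) ^ eb i j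
  let P₂ : Fin n → Fin n → Fo r N := fun i j => A j ^ eb i j * (C (b i) * B i) ^ ea i j
  have hCb : ∀ j, (C (b j) * B j : Fo r N).IsHomogeneous (d j) := fun j => by
    have h1 := (isHomogeneous_C (Fin (N + 1)) (b j)).mul (hB j)
    rwa [zero_add] at h1
  have hP₁ : ∀ i j, (P₁ i j).IsHomogeneous (d i * ea i j + d j * eb i j) := fun i j =>
    ((hA i).pow _).mul ((hCb j).pow _)
  have hP₂ : ∀ i j, (P₂ i j).IsHomogeneous (d i * ea i j + d j * eb i j) := fun i j => by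
    rw [show d i * ea i j + d j * eb i j = d j * eb i j + d i * ea i j from add_comm _ _]
    exact ((hA j).pow (eb i j)).mul ((hCb i).pow (ea i j))
  -- the finite sets
  have h1 := fun I : {I : Finset (Fin n) // I.card = m + 1} =>
    hCERT r N (κ ⊕ I.1) (Sum.elim G fun i : I.1 => A i * B i) D E (fun t hD hE y hy =>
      (hpos t hD hE).1 I.1 I.2 y (fun k => hy (Sum.inl k)) fun i hi => by
        have h2 := hy (Sum.inr ⟨i, hi⟩)
        simp only [Sum.elim_inr] at h2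
        rwa [vf_mul] at h2)
  choose W1 hW1 using h1
  have h2 := fun i : Fin n => hCERT r N Unit (fun _ => C (b i)) D E (fun t hD hE y hy => by
    have h3 := hy ()
    rw [vf_C] at h3
    exact absurd h3 ((hpos t hD hE).2 i))
  choose W2 hW2 using h2
  choose WA hWA using fun i : Fin n => vf_bound (A i)
  choose WB hWB using fun i : Fin n => vf_bound (B i)
  let Qt := {q : Finset (Fin n) × Fin n × Fin n // q.1.card = m ∧ q.2.1 ∉ q.1 ∧ q.2.2 ∉ q.1 ∧
    q.2.1 ≠ q.2.2}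
  have h4 := fun q : Qt => hFINR r N (d q.1.2.1 * ea q.1.2.1 q.1.2.2 + d q.1.2.2 *
    eb q.1.2.1 q.1.2.2) (Nat.add_pos_left (Nat.mul_pos (hd _) (hea0 _ _)) _) (κ ⊕ q.1.1)
    (Sum.elim G fun i : q.1.1 => A i * B i) (P₁ q.1.2.1 q.1.2.2) (P₂ q.1.2.1 q.1.2.2) D E
    (by
      rintro (k | i)
      · exact hG k
      · exact ⟨_, (hA i).mul (hB i)⟩) (hP₁ _ _) (hP₂ _ _) (fun t hD hE y hy h0 => by
      have hI : ∀ i ∈ q.1.1, vf t y (A i) * vf t y (B i) = 0 := fun i hi => by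
        have h2 := hy (Sum.inr ⟨i, hi⟩)
        simp only [Sum.elim_inr] at h2
        rwa [vf_mul] at h2
      obtain ⟨h5, h6, h7, h8⟩ := q.2
      have hj : ∃ j, j ∉ q.1.1 ∧ vf t y (A j) * vf t y (B j) = 0 := by
        simp only [P₂] at h0
        rw [vf_mul, vf_pow, vf_pow, vf_mul, vf_C] at h0
        rcases mul_eq_zero.1 h0 with h | h
        · exact ⟨_, h7, by rw [pow_eq_zero_iff (heb0 _ _).ne'] at h; rw [h, zero_mul]⟩
        · rw [pow_eq_zero_iff (hea0 _ _).ne'] at h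
          rcases mul_eq_zero.1 h with h | h
          · exact absurd h ((hpos t hD hE).2 _)
          · exact ⟨_, h6, by rw [h, mul_zero]⟩
      obtain ⟨j, hj, hj0⟩ := hj
      refine (hpos t hD hE).1 (insert j q.1.1) (by rw [Finset.card_insert_of_notMem hj, h5]) y
        (fun k => hy (Sum.inl k)) ?_
      intro i hi
      rcases Finset.mem_insert.1 hi with rfl | hi
      · exact hj0
      · exact hI i hi)
  choose W4 D4 hW4 using h4
  have h5 : ∀ (M : ℕ) (q : Qt), ∃ W : Finset QA, 0 < M → ∀ (C : Type) [NormedField C]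
      [IsUltrametricDist C] (p : ℕ) [Fact p.Prime]
      (φ : ℂ →+* C), ‖(p : C)‖ < 1 → (∀ w ∈ W, ‖φ (rA w)‖ ≤ 1) → ∀ t : Fin r → ℤ,
      (p : ℤ) ∣ eval t D → ¬ (p : ℤ) ∣ eval t (E * Fm M) → ∀ y : Fin (N + 1) → ℂ,
      (∀ j, ‖φ (y j)‖ ≤ 1) → (∃ j, ‖φ (y j)‖ = 1) →
      ∃ b : (κ ⊕ q.1.1) ⊕ Unit, ‖φ (vf (tc t) y (Sum.elim (Sum.elim G fun i : q.1.1 => A i * B i)
        (fun _ => P₁ q.1.2.1 q.1.2.2 ^ M - P₂ q.1.2.1 q.1.2.2 ^ M) b))‖ = 1 := by
    intro M q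
    rcases Nat.eq_zero_or_pos M with h | hM
    · exact ⟨∅, fun h' => absurd h' (by omega)⟩
    · obtain ⟨W, hW⟩ := hCERT r N ((κ ⊕ q.1.1) ⊕ Unit) (Sum.elim (Sum.elim G fun i : q.1.1 => A i * B i)
        (fun _ => P₁ q.1.2.1 q.1.2.2 ^ M - P₂ q.1.2.1 q.1.2.2 ^ M)) D (E * Fm M) (by
        intro t hD hE y hy
        rw [map_mul] at hE
        by_contra hy0
        obtain ⟨h5, h6, h7, h8⟩ := q.2
        refine hres M hM t hD (left_ne_zero_of_mul hE) (right_ne_zero_of_mul hE) q.1.1 h5 q.1.2.1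
          q.1.2.2 h6 h7 h8 y hy0 (fun k => hy (Sum.inl (Sum.inl k))) (fun i hi => by
            have h2 := hy (Sum.inl (Sum.inr ⟨i, hi⟩))
            simp only [Sum.elim_inr, Sum.elim_inl] at h2
            rwa [vf_mul] at h2) ?_
        have h9 := hy (Sum.inr ())
        simp only [Sum.elim_inr, P₁, P₂] at h9
        rw [vf_sub, vf_pow, vf_pow, vf_mul, vf_pow, vf_pow, vf_mul, vf_C, vf_mul, vf_pow, vf_pow,
          vf_mul, vf_C, sub_eq_zero] at h9
        have h10 := congrArg (fun z => z ^ Nat.gcd (e q.1.2.1) (e q.1.2.2)) h9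
        rw [key1 q.1.2.1 q.1.2.2, key2 q.1.2.1 q.1.2.2, ← pow_mul, ← pow_mul, mul_comm (Nat.gcd _ _),
          pow_mul, pow_mul]
        exact h10)
      exact ⟨W, fun _ => hW⟩
  choose W5 hW5 using h5
  let W : Finset QA := ((Finset.univ.biUnion W1) ∪ (Finset.univ.biUnion W2)) ∪
    (((Finset.univ.biUnion WA) ∪ (Finset.univ.biUnion WB)) ∪ (Finset.univ.biUnion W4))
  let D₁ : ℕ := Finset.univ.sup D4
  refine ⟨W, D₁, fun M => Finset.univ.biUnion (W5 M), ?_⟩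
  intro C _ _ _ _ _ p _ φ hp0 hp1 hW t hD hE x y hy0 hyG hxy
  have hW1' : ∀ I, ∀ w ∈ W1 I, ‖φ (rA w)‖ ≤ 1 := fun I w hw => hW w
    (Finset.mem_union_left _ (Finset.mem_union_left _ (Finset.mem_biUnion.2
      ⟨I, Finset.mem_univ _, hw⟩)))
  have hW2' : ∀ I, ∀ w ∈ W2 I, ‖φ (rA w)‖ ≤ 1 := fun I w hw => hW w
    (Finset.mem_union_left _ (Finset.mem_union_right _ (Finset.mem_biUnion.2
      ⟨I, Finset.mem_univ _, hw⟩)))
  have hWA' : ∀ I, ∀ w ∈ WA I, ‖φ (rA w)‖ ≤ 1 := fun I w hw => hW w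
    (Finset.mem_union_right _ (Finset.mem_union_left _ (Finset.mem_union_left _
      (Finset.mem_biUnion.2 ⟨I, Finset.mem_univ _, hw⟩))))
  have hWB' : ∀ I, ∀ w ∈ WB I, ‖φ (rA w)‖ ≤ 1 := fun I w hw => hW w
    (Finset.mem_union_right _ (Finset.mem_union_left _ (Finset.mem_union_right _
      (Finset.mem_biUnion.2 ⟨I, Finset.mem_univ _, hw⟩))))
  have hW4' : ∀ I, ∀ w ∈ W4 I, ‖φ (rA w)‖ ≤ 1 := fun I w hw => hW w
    (Finset.mem_union_right _ (Finset.mem_union_right _ (Finset.mem_biUnion.2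
      ⟨I, Finset.mem_univ _, hw⟩)))
  -- normalization of `y`
  obtain ⟨j0, -, hj0⟩ := Finset.exists_max_image Finset.univ (fun j => ‖φ (y j)‖)
    ⟨0, Finset.mem_univ _⟩
  have hyj0 : y j0 ≠ 0 := by
    intro h
    apply hy0
    funext j
    have h1 := hj0 j (Finset.mem_univ j)
    simp only [h, map_zero, norm_zero] at h1
    exact (map_eq_zero φ).1 (norm_eq_zero.1 (le_antisymm h1 (norm_nonneg _)))
  have hnj0 : 0 < ‖φ (y j0)‖ := norm_pos_iff.2 ((map_ne_zero φ).2 hyj0)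
  set z : Fin (N + 1) → ℂ := (y j0)⁻¹ • y with hz
  have hz1 : ∀ j, ‖φ (z j)‖ ≤ 1 := by
    intro j
    rw [hz, Pi.smul_apply, smul_eq_mul, map_mul, norm_mul, map_inv₀, norm_inv]
    rw [inv_mul_le_iff₀ hnj0, mul_one]
    exact hj0 j (Finset.mem_univ j)
  have hzj : ‖φ (z j0)‖ = 1 := by
    rw [hz, Pi.smul_apply, smul_eq_mul, inv_mul_cancel₀ hyj0, map_one, norm_one]
  have hzG : ∀ k, vf (tc t) z (G k) = 0 := by
    intro k
    obtain ⟨f, hf⟩ := hG k
    rw [hz, vf_smul hf, hyG k, mul_zero]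
  have hxz : ∀ i, evM QA (tc t) (c i) * vf (tc t) z (B i) * x i = vf (tc t) z (A i) := by
    intro i
    rw [hz, vf_smul (hB i), vf_smul (hA i), ← hxy i]
    ring
  have hDp : ‖φ (aeval (tc t) D)‖ < 1 := by
    rw [aeval_tc, map_intCast]
    exact norm_int_lt hp1 hD
  have hci : ∀ i, evM QA (tc t) (c i) = aeval (tc t) D ^ e i * evM QA (tc t) (b i) := by
    intro i
    rw [hc i, map_mul, map_pow, evM_int]
  have hbi : ∀ i, ‖φ (evM QA (tc t) (b i))‖ = 1 := by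
    intro i
    obtain ⟨_, h⟩ := hW2 i C p φ hp1 (hW2' i) t hD hE z hz1 ⟨j0, hzj⟩
    rwa [vf_C] at h
  have hAi : ∀ i, ‖φ (vf (tc t) z (A i))‖ ≤ 1 := fun i => hWA i C φ (hWA' i) t z hz1
  have hBi : ∀ i, ‖φ (vf (tc t) z (B i))‖ ≤ 1 := fun i => hWB i C φ (hWB' i) t z hz1
  let E' : Finset (Fin n) := Finset.univ.filter fun i =>
    ‖φ (vf (tc t) z (A i))‖ * ‖φ (vf (tc t) z (B i))‖ < 1
  have hE'1 : ∀ i, i ∉ E' → ‖φ (vf (tc t) z (A i))‖ = 1 ∧ ‖φ (vf (tc t) z (B i))‖ = 1 := by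
    intro i hi
    have h1 : 1 ≤ ‖φ (vf (tc t) z (A i))‖ * ‖φ (vf (tc t) z (B i))‖ := by
      by_contra h
      push Not at h
      exact hi (Finset.mem_filter.2 ⟨Finset.mem_univ _, h⟩)
    constructor
    · exact le_antisymm (hAi i) (h1.trans (mul_le_of_le_one_right (norm_nonneg _) (hBi i)))
    · exact le_antisymm (hBi i) (h1.trans (mul_le_of_le_one_left (norm_nonneg _) (hAi i)))
  have hE'2 : ∀ i ∈ E', ‖φ (vf (tc t) z (A i * B i))‖ < 1 := by
    intro i hi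
    rw [vf_mul, map_mul, norm_mul]
    exact (Finset.mem_filter.1 hi).2
  have hx1 : ∀ i, i ∉ E' → ‖φ (x i)‖ * ‖φ (aeval (tc t) D)‖ ^ e i = 1 := by
    intro i hi
    have h1 := congrArg (fun w => ‖φ w‖) (hxz i)
    rw [hci, map_mul, map_mul, map_mul, map_pow, norm_mul, norm_mul, norm_mul, norm_pow,
      hbi, (hE'1 i hi).1, (hE'1 i hi).2, mul_one, mul_one] at h1
    rw [mul_comm]
    exact h1
  refine ⟨E', ?_, hx1, ?_⟩
  · by_contra hcard
    push Not at hcard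
    obtain ⟨I, hI, hIc⟩ := Finset.exists_subset_card_eq (Nat.succ_le_of_lt hcard)
    obtain ⟨bb, hb⟩ := hW1 ⟨I, hIc⟩ C p φ hp1 (hW1' _) t hD hE z hz1 ⟨j0, hzj⟩
    rcases bb with k | i
    · simp only [Sum.elim_inl] at hb
      rw [hzG k, map_zero, norm_zero] at hb
      exact zero_ne_one hb
    · simp only [Sum.elim_inr] at hb
      exact absurd hb (hE'2 i (hI i.2)).ne
  intro hcard i j hi hj hij N₀ hN₀
  have hDn0 : φ (aeval (tc t) D) ≠ 0 := by
    intro h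
    have h1 := hx1 i hi
    rw [h, norm_zero, zero_pow (he i).ne', mul_zero] at h1
    exact zero_ne_one h1
  have hDn : 0 < ‖φ (aeval (tc t) D)‖ := norm_pos_iff.2 hDn0
  have hgt : ∀ i, i ∉ E' → 1 < ‖φ (x i)‖ := by
    intro i hi
    have h1 := hx1 i hi
    by_contra h
    push Not at h
    have h2 : ‖φ (x i)‖ * ‖φ (aeval (tc t) D)‖ ^ e i < 1 :=
      (mul_le_of_le_one_left (pow_nonneg (norm_nonneg _) _) h).trans_lt
        (pow_lt_one₀ (norm_nonneg _) hDp (he i).ne')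
    rw [h1] at h2
    exact lt_irrefl _ h2
  have hnorm : ‖φ (x j)‖ ^ eb i j = ‖φ (x i)‖ ^ ea i j := by
    have h1 := congrArg (fun w => w ^ ea i j) (hx1 i hi)
    have h2 := congrArg (fun w => w ^ eb i j) (hx1 j hj)
    simp only [mul_pow, one_pow] at h1 h2
    rw [← pow_mul] at h1 h2
    rw [hexp i j] at h1
    exact mul_right_cancel₀ (pow_pos hDn _).ne' (h2.trans h1.symm)
  obtain ⟨g, s, ζ, hg, hgp, hζ, hN, hclose⟩ := hPAIR C p φ hp0 hp1 (x i) (x j) (hgt i hi)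
    (hgt j hj) (ea i j) (eb i j) (hea0 i j) (heb0 i j) (hcop i j) hnorm N₀ hN₀
  -- the relation
  have hrel : x i ^ ea i j * vf (tc t) z (P₂ i j) = x j ^ eb i j * vf (tc t) z (P₁ i j) := by
    simp only [P₁, P₂]
    rw [vf_mul, vf_pow, vf_pow, vf_mul, vf_C, vf_mul, vf_pow, vf_pow, vf_mul, vf_C, ← hxz i,
      ← hxz j, hci, hci]
    have h1 : (aeval (tc t) D : ℂ) ^ (e i * ea i j) = aeval (tc t) D ^ (e j * eb i j) := by
      rw [hexp]
    rw [pow_mul, pow_mul] at h1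
    calc _ = ((aeval (tc t) D : ℂ) ^ e j) ^ eb i j * (x i ^ ea i j * (evM QA (tc t) (b j) *
          vf (tc t) z (B j) * x j) ^ eb i j * (evM QA (tc t) (b i) * vf (tc t) z (B i)) ^ ea i j) := by
          rw [mul_pow, mul_pow, mul_pow, mul_pow, mul_pow]
          ring
      _ = ((aeval (tc t) D : ℂ) ^ e i) ^ ea i j * (x i ^ ea i j * (evM QA (tc t) (b j) *
          vf (tc t) z (B j) * x j) ^ eb i j * (evM QA (tc t) (b i) * vf (tc t) z (B i)) ^ ea i j) := by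
          rw [h1]
      _ = _ := by
          rw [mul_pow, mul_pow, mul_pow, mul_pow, mul_pow]
          ring
  have hnP : ∀ i j, i ∉ E' → j ∉ E' → ‖φ (vf (tc t) z (P₂ i j))‖ = 1 := by
    intro i j hi hj
    simp only [P₂]
    rw [vf_mul, vf_pow, vf_pow, vf_mul, vf_C, map_mul, map_pow, map_pow, map_mul, norm_mul,
      norm_pow, norm_pow, norm_mul, hbi, (hE'1 j hj).1, (hE'1 i hi).2, one_pow, one_mul, one_mul,
      one_pow]
  have hP2n := hnP i j hi hj
  have hP20 : φ (vf (tc t) z (P₂ i j)) ≠ 0 := by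
    intro h
    rw [h, norm_zero] at hP2n
    exact zero_ne_one hP2n
  have hxj0 : φ (x j) ≠ 0 := by
    intro h
    have h1 := hgt j hj
    rw [h, norm_zero] at h1
    exact absurd h1 (not_lt.2 zero_le_one)
  have hquot : φ (x i) ^ ea i j / φ (x j) ^ eb i j =
      φ (vf (tc t) z (P₁ i j)) / φ (vf (tc t) z (P₂ i j)) := by
    rw [div_eq_div_iff (pow_ne_zero _ hxj0) hP20]
    have h1 := congrArg φ hrel
    rw [map_mul, map_mul, map_pow, map_pow] at h1
    rw [h1, mul_comm]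
  rw [hquot] at hclose
  have hζ1 : ‖ζ‖ = 1 := by
    have h1 := congrArg (fun w => ‖w‖) hζ.pow_eq_one
    simp only [norm_pow, norm_one] at h1
    exact (pow_eq_one_iff_of_nonneg (norm_nonneg _) hg.ne').1 h1
  let q : Qt := ⟨(E', i, j), hcard, hi, hj, hij⟩
  have hFlt : ∀ bb : κ ⊕ E', ‖φ (vf (tc t) z (Sum.elim G (fun i : E' => A i * B i) bb))‖ < 1 := by
    rintro (k | i')
    · simp only [Sum.elim_inl]
      rw [hzG k, map_zero, norm_zero]
      exact one_pos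
    · simp only [Sum.elim_inr]
      exact hE'2 i' i'.2
  refine ⟨g, s, hg, hgp, hN, ?_, ?_⟩
  · have h1 := hW4 q C p φ hp0 hp1 (hW4' q) t hD hE z hz1 hFlt hP2n g ζ hg hgp hζ hclose
    exact h1.trans (Nat.pow_le_pow_right (Fact.out : p.Prime).pos
      (Finset.le_sup (Finset.mem_univ q)))
  · intro M hM hWM hFM hdvd
    have hE2 : ¬ (p : ℤ) ∣ eval t (E * Fm M) := by
      rw [map_mul]
      intro h
      rcases (Nat.prime_iff_prime_int.1 (Fact.out : p.Prime)).dvd_mul.1 h with h | h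
      · exact hE h
      · exact hFM h
    obtain ⟨bb, hb⟩ := hW5 M q hM C p φ hp1 (fun w hw => hWM w (Finset.mem_biUnion.2
      ⟨q, Finset.mem_univ _, hw⟩)) t hD hE2 z hz1 ⟨j0, hzj⟩
    rcases bb with bb | u
    · simp only [Sum.elim_inl] at hb
      exact absurd hb (hFlt bb).ne
    · simp only [Sum.elim_inr] at hb
      rw [vf_sub, vf_pow, vf_pow, map_sub, map_pow, map_pow] at hb
      set u₁ := φ (vf (tc t) z (P₁ i j)) with hu₁
      set u₂ := φ (vf (tc t) z (P₂ i j)) with hu₂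
      have hun : ‖u₁ / u₂‖ ≤ 1 := by
        have h1 : u₁ / u₂ = (u₁ / u₂ - ζ) + ζ := by ring
        rw [h1]
        exact (IsUltrametricDist.norm_add_le_max _ _).trans (max_le hclose.le hζ1.le)
      have h2 := pow_near hun hζ1.le hclose M
      have h3 : ζ ^ M = 1 := (hζ.pow_eq_one_iff_dvd M).2 hdvd
      rw [h3] at h2
      have h4 : u₁ ^ M - u₂ ^ M = u₂ ^ M * ((u₁ / u₂) ^ M - 1) := by
        rw [div_pow]
        field_simp
      have h5 : ‖u₁ ^ M - u₂ ^ M‖ < 1 := by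
        rw [h4, norm_mul, norm_pow, hP2n, one_pow, one_mul]
        exact h2
      exact absurd hb h5.ne

end Pool.Agent.Q170.HD
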