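import Pool.Agent.Q170.HD.Pig
import Pool.Agent.Q170.ZP.MultiFam

/-!
# Project HD: the members with chains of prime factors have no atypical intersections
-/

set_option autoImplicit false

open Function UpperHalfPlane H294ZP MvPolynomial Pool.Agent.W466.ZC

namespace Pool.Agent.Q170.HD

open Pool.Agent.Y226 Pool.Agent.Y152.BD Pool.Agent.W282.ZP
open Pool.Agent.Q170.ZP (IndExp)
open Pool.Agent.Q170.ZP.Multi (evM)
open Pool.Agent.Y152.RP.Fam (SpecialVariety SpecialVariety.locus NoAtypical rel_of_locus)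

/-- the member `X_t` of the family -/
def img {r N n : ℕ} {κ : Type} (G : κ → Fo r N) (A B : Fin n → Fo r N)
    (c : Fin n → MvPolynomial (Fin r) QA) (t : Fin r → ℂ) : Set (Fin n → ℂ) :=
  {x | ∃ y : Fin (N + 1) → ℂ, y ≠ 0 ∧ (∀ k, vf t y (G k) = 0) ∧
    ∀ i, evM QA t (c i) * vf t y (B i) * x i = vf t y (A i)}

/-- the algebraic numbers as a subfield -/
noncomputable def QAs : Subfield ℂ := QA.toSubfield

theorem algInd_QA {ι : Type} {x : ι → ℂ} (h : AlgebraicIndependent QAs x) :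
    AlgebraicIndependent QA x := by
  have h1 : AlgebraicIndependent ℚ x :=
    AlgebraicIndependent.restrictScalars (R := ℚ) (K := QAs)
      (algebraMap ℚ QAs).injective h
  exact h1.extendScalars QA

theorem Chain.mono {T : ℕ} {Φ Φ' : ℕ → ℕ} {d : ℤ} {E E' : ℕ → ℤ} (h : Chain T Φ' d E')
    (hΦ : ∀ q, Φ q ≤ Φ' q) (hE : ∀ q, E q ∣ E' q) : Chain T Φ d E := by
  obtain ⟨p, h1, h2⟩ := h
  refine ⟨p, fun ν => ⟨(h1 ν).1, (h1 ν).2.1, (hΦ 0).trans_lt (h1 ν).2.2.1, fun h3 =>
    (h1 ν).2.2.2 (h3.trans (hE 0))⟩, fun μ ν hμν => ⟨(hΦ _).trans_lt (h2 μ ν hμν).1, fun h3 =>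
    (h2 μ ν hμν).2 (h3.trans (hE _))⟩⟩

section Main

variable {r N n m L : ℕ} {κ : Type} [Fintype κ] (G : κ → Fo r N)
    (hG : ∀ k, ∃ f, (G k).IsHomogeneous f)
    (A B : Fin n → Fo r N) (d : Fin n → ℕ) (hd : ∀ i, 0 < d i)
    (hA : ∀ i, (A i).IsHomogeneous (d i)) (hB : ∀ i, (B i).IsHomogeneous (d i))
    (c : Fin n → MvPolynomial (Fin r) QA) (b : Fin L → Fin n → MvPolynomial (Fin r) QA)
    (D E : Fin L → MvPolynomial (Fin r) ℤ)
    (e : Fin L → Fin n → ℕ) (he : IndExp 1 e)
    (hc : ∀ l i, c i = MvPolynomial.map (Int.castRingHom QA) (D l) ^ e l i * b l i)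
    (hpos : ∀ l, ∀ t : Fin r → ℂ, aeval t (D l) = 0 → aeval t (E l) ≠ 0 →
      (∀ I : Finset (Fin n), I.card = m + 1 → ∀ y : Fin (N + 1) → ℂ,
        (∀ k, vf t y (G k) = 0) → (∀ i ∈ I, vf t y (A i) * vf t y (B i) = 0) → y = 0) ∧
      ∀ i, evM QA t (b l i) ≠ 0)
    (Fm : Fin L → ℕ → MvPolynomial (Fin r) ℤ)
    (hres : ∀ l, ∀ M : ℕ, 0 < M → ∀ t : Fin r → ℂ, aeval t (D l) = 0 → aeval t (E l) ≠ 0 →
      aeval t (Fm l M) ≠ 0 → ∀ I : Finset (Fin n), I.card = m → ∀ i j : Fin n, i ∉ I → j ∉ I →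
      i ≠ j → ∀ y : Fin (N + 1) → ℂ, y ≠ 0 → (∀ k, vf t y (G k) = 0) →
      (∀ k ∈ I, vf t y (A k) * vf t y (B k) = 0) →
      (vf t y (A i) ^ e l j * (evM QA t (b l j) * vf t y (B j)) ^ e l i) ^ M ≠
        (vf t y (A j) ^ e l i * (evM QA t (b l i) * vf t y (B i)) ^ e l j) ^ M)

include hG hd hA hB he hc hpos hres in
/-- The members near to all hypersurfaces have no atypical intersections. -/
theorem hdMain (hEMB : S_EMB) (hCERT : S_CERT) (hFINR : S_FINR) (hPAIR : S_PAIR)
    (hL : m + 1 < 2 * L) (Γ : Finset QA) :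
    ∃ (Φ : ℕ → ℕ) (D₁ : ℕ), ∀ t : Fin r → ℤ, (∀ l, Chain (2 * n ^ 2 + 1) Φ (eval t (D l))
      (fun q => eval t (E l * ∏ M ∈ Finset.Icc 1 ((q + 1) ^ (2 * D₁)), Fm l M))) →
      NoAtypical (algebraMap (Algebra.adjoin ℤ (algebraMap QA ℂ '' (Γ : Set QA))) ℂ) QAs m
        (img G A B c (tc t)) := by
  classical
  choose Φl D1 hΦ using fun l => locB G hG A B d hd hA hB (b l) c (D l) (E l) (e l)
    (fun i => he.1 l i) (hc l) (hpos l) (Fm l) (hres l) hEMB hCERT hFINR hPAIR Γ
  refine ⟨fun q => ∑ l, Φl l q, ∑ l, D1 l, ?_⟩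
  intro t ht r' Z
  have hloc : ∀ l, ∀ (x : Fin n → ℂ) (y : Fin (N + 1) → ℂ), y ≠ 0 →
      (∀ k, vf (tc t) y (G k) = 0) →
      (∀ i, evM QA (tc t) (c i) * vf (tc t) y (B i) * x i = vf (tc t) y (A i)) →
      ∀ S : Finset (Fin n), AlgebraicIndependent QA (fun i : S => x i) → Coll m Γ x S →
      ∃ V : ValuationSubring ℂ, V.valuation (aeval (tc t) (D l)) < 1 ∧ (∀ γ ∈ Γ, rA γ ∈ V) ∧
        (∀ i ∈ S, x i ∈ V) ∧ ∃ E' : Finset (Fin n), E'.card < m ∧ ∀ i, i ∉ E' →
          V.valuation (x i) * V.valuation (aeval (tc t) (D l)) ^ e l i = 1 := by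
    intro l
    refine hΦ l t ((ht l).mono (fun q => ?_) fun q => ?_)
    · exact Finset.single_le_sum (f := fun l => Φl l q) (fun _ _ => Nat.zero_le _)
        (Finset.mem_univ l)
    · rw [map_mul, map_mul, map_prod, map_prod]
      refine mul_dvd_mul_left _ (Finset.prod_dvd_prod_of_subset _ _ _ ?_)
      refine Finset.Icc_subset_Icc_right ?_
      calc q ^ (2 * D1 l) ≤ (q + 1) ^ (2 * D1 l) := Nat.pow_le_pow_left (Nat.le_succ q) _
        _ ≤ (q + 1) ^ (2 * ∑ l, D1 l) := by
          refine Nat.pow_le_pow_right (Nat.succ_pos q) ?_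
          have := Finset.single_le_sum (f := fun l => D1 l) (fun _ _ => Nat.zero_le _)
            (Finset.mem_univ l)
          omega
  have hpt : ∀ x ∈ img G A B c (tc t) ∩ Z.locus, ∀ S : Finset (Fin n),
      AlgebraicIndependent QAs (fun i : S => x i) → S.card + n ≤ r' + m := by
    rintro x ⟨⟨y, hy0, hyG, hxy⟩, hxZ⟩ S hS0
    have hS : AlgebraicIndependent QA (fun i : S => x i) := algInd_QA hS0
    by_contra hcon
    push Not at hcon
    have hδ : ∀ i, 0 < (Z.mat i).det.toNat := fun i => by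
      have := Z.det_pos i
      omega
    have h1 : ∀ i, Z.cls i = none →
        IsIntegral (Algebra.adjoin ℤ (algebraMap QA ℂ '' (Γ : Set QA))) (x i) := by
      intro i hi
      obtain ⟨z, hz⟩ := hxZ
      rw [(hz i).1 hi]
      rcases Z.allowed i with ⟨τ, hτ, hc⟩ | h
      · rw [hc]
        exact (singular_modulus_integral τ hτ).tower_top
      · exact h
    have hrel : ∀ i j l, Z.cls i = some l → Z.cls j = some l →
        IsIntegral (Algebra.adjoin ℤ {x i}) (x j) ∧
        Polynomial.eval₂ (Polynomial.aeval (x i) : Polynomial ℂ →ₐ[ℂ] ℂ).toRingHom (x j)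
          (W282.ZP.Psi ((Z.mat i).det.toNat * (Z.mat j).det.toNat)) = 0 := by
      intro i j l hi hj
      have h5 := rel_of_locus Z hxZ i j l hi hj
      rw [Int.toNat_mul (Z.det_pos i).le (Z.det_pos j).le] at h5
      exact h5
    have hVc : ∀ V : ValuationSubring ℂ, (∀ γ ∈ Γ, rA γ ∈ V) → ∀ i, Z.cls i = none →
        V.valuation (x i) ≤ 1 := fun V hV i hi =>
      v_le_of_int (k := QA) (Γ : Set QA) V (fun z hz => hV z hz) (h1 i hi)
    have hcoll : Coll m Γ x S := by
      intro V hVΓ hVS E' hE' hgt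
      obtain ⟨i, j, k, hi, hj, hij, hk, hk'⟩ := pigeon (Λ := QA) Z.cls
        (fun i => (Z.mat i).det.toNat) x hδ (fun i hi => alg_of_int (k := QA) _ (h1 i hi)) hrel S hS
        hcon V (hVc V hVΓ) hVS E' hE' hgt
      exact ⟨i, j, hi, hj, hij, psiE_of_locus Z hxZ hk hk'⟩
    choose V hVD hVΓ hVS hE' using fun l => hloc l x y hy0 hyG hxy S hS hcoll
    have hm : 0 < m := by
      obtain ⟨E', h2, -⟩ := hE' ⟨0, by omega⟩
      omega
    have h9 := coreW' (Λ := QA) (m := m) (m' := m - 1) (T := 1) (L := L) (by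
        obtain ⟨u, rfl⟩ : ∃ u, m = u + 1 := ⟨m - 1, by omega⟩
        rw [Nat.add_sub_cancel]
        nlinarith)
      (fun _ => Polynomial.X - Polynomial.C Polynomial.X) (fun _ => Polynomial.monic_X_sub_C _)
      (by
        intro i u w h0
        rw [Polynomial.coeff_sub, Polynomial.coeff_X, Polynomial.coeff_C] at h0
        by_cases hu : u = 0
        · subst hu
          simp only [one_ne_zero, if_false, if_true, zero_sub, Polynomial.coeff_neg,
            Polynomial.coeff_X] at h0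
          by_cases hw : (1 : ℕ) = w
          · omega
          · simp [hw] at h0
        · by_cases hu1 : (1 : ℕ) = u
          · subst hu1
            simp only [if_true, one_ne_zero, if_false, sub_zero, Polynomial.coeff_one] at h0
            by_cases hw : w = 0
            · omega
            · simp [hw] at h0
          · simp [hu, hu1] at h0)
      e he Z.cls (fun i => (Z.mat i).det.toNat) x x hδ
      (fun i hi => alg_of_int (k := QA) _ (h1 i hi)) hrel
      (by
        intro i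
        rw [Polynomial.eval₂_sub, Polynomial.eval₂_X, Polynomial.eval₂_C]
        change x i - Polynomial.aeval (x i) (Polynomial.X : Polynomial QA) = 0
        rw [Polynomial.aeval_X, sub_self])
      S hS V (fun l => (V l).valuation (aeval (tc t) (D l))) hVD
      (fun l i hi => hVc (V l) (hVΓ l) i hi)
      (by
        intro l i u w h0
        rw [Polynomial.coeff_sub, Polynomial.coeff_X, Polynomial.coeff_C] at h0 ⊢
        by_cases hu : u = 0
        · subst hu
          simp only [one_ne_zero, if_false, if_true, zero_sub, Polynomial.coeff_neg,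
            Polynomial.coeff_X] at h0 ⊢
          by_cases hw : (1 : ℕ) = w
          · simp [hw, Valuation.map_neg]
          · simp [hw] at h0
        · by_cases hu1 : (1 : ℕ) = u
          · subst hu1
            simp only [if_true, one_ne_zero, if_false, sub_zero, Polynomial.coeff_one] at h0 ⊢
            by_cases hw : w = 0
            · simp [hw]
            · simp [hw] at h0
          · simp [hu, hu1] at h0)
      (fun l i => hVS l i i.2)
      (fun l => by
        obtain ⟨E', h2, h3⟩ := hE' l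
        exact ⟨E', by omega, h3⟩)
    omega
  refine ⟨?_, hpt⟩
  intro A' hA' hcl' hprime
  have hcount : Countable QAs := by
    have h0 : Cardinal.mk QA ≤ Cardinal.aleph0 := by
      have h1 := Algebra.IsAlgebraic.cardinalMk_le_max ℚ QA
      rwa [Cardinal.mkRat, max_self] at h1
    exact Cardinal.mk_le_aleph0_iff.1 h0
  obtain ⟨x, hxW, T', hT', hdim⟩ := Pool.Agent.W466.ZC.generic_dim QAs A' hprime hcl'
  have h2 := hpt x (hA' hxW) T' hT'
  calc zdim A' + (n : Cardinal) ≤ (T'.card : Cardinal) + (n : Cardinal) := by gcongr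
    _ = ((T'.card + n : ℕ) : Cardinal) := by push_cast; rfl
    _ ≤ ((r' + m : ℕ) : Cardinal) := by exact_mod_cast h2
    _ = (r' : Cardinal) + (m : Cardinal) := by push_cast; rfl

end Main

end Pool.Agent.Q170.HD
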