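import Pool.Agent.Q170.HD.Place

/-!
# Project HD: two coordinates in one class, and the coordinates as functions of level one
-/

set_option autoImplicit false

open Function UpperHalfPlane H294ZP MvPolynomial Pool.Agent.W466.ZC

namespace Pool.Agent.Q170.HD

open Pool.Agent.TH526.ZL Pool.Agent.Q170.ZP Pool.Agent.Y226

/-- two coordinates of one class outside of a small set (the proof is the first part of that of
`coreW'`) -/
theorem pigeon {Λ : Type} [CommRing Λ] [IsDomain Λ] [Algebra Λ ℂ] {n m r : ℕ}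
    (cls : Fin n → Option (Fin r)) (δ : Fin n → ℕ) (x : Fin n → ℂ)
    (hδ : ∀ i, 0 < δ i)
    (hconst : ∀ i, cls i = none → IsAlgebraic Λ (x i))
    (hrel : ∀ i j l, cls i = some l → cls j = some l →
        IsIntegral (Algebra.adjoin ℤ {x i}) (x j) ∧
        Polynomial.eval₂ (Polynomial.aeval (x i) : Polynomial ℂ →ₐ[ℂ] ℂ).toRingHom (x j)
          (W282.ZP.Psi (δ i * δ j)) = 0)
    (S : Finset (Fin n)) (hS : AlgebraicIndependent Λ (fun i : S => x i))
    (hcon : r + m < S.card + n)
    (V : ValuationSubring ℂ)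
    (hVc : ∀ i, cls i = none → V.valuation (x i) ≤ 1)
    (hVx : ∀ i ∈ S, x i ∈ V) (E : Finset (Fin n)) (hE : E.card ≤ m)
    (hgt : ∀ i, i ∉ E → 1 < V.valuation (x i)) :
    ∃ i j k, i ∉ E ∧ j ∉ E ∧ i ≠ j ∧ cls i = some k ∧ cls j = some k := by
  classical
  have hQ : ∀ i j, 0 < δ i * δ j := fun i j => Nat.mul_pos (hδ i) (hδ j)
  have hV1 : ∀ i j k, cls i = some k → cls j = some k → V.valuation (x i) ≤ 1 →
      V.valuation (x j) ≤ 1 := by
    intro i j k hi hj h1
    exact ((W282.ZP.Psi_spec (hQ i j)).2.2 ℂ V (x i) (x j) (hrel i j k hi hj).2).1 h1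
  have hSsome : ∀ t : S, ∃ k, cls t = some k := by
    intro t
    cases hc : cls t with
    | none => exact ((hS.transcendental t) (hconst t hc)).elim
    | some k => exact ⟨k, rfl⟩
  choose cl hcl using hSsome
  have hclinj : Function.Injective cl := by
    intro t t' htt
    by_contra hne
    exact not_algInd' hS hne (hrel t t' (cl t) (hcl t) (by rw [htt]; exact hcl t')).1
  let Fr : Finset (Option (Fin r)) := (Finset.univ.filter fun k : Fin r =>
    k ∉ Finset.univ.image cl).image some
  have hFr : Fr.card + S.card = r := by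
    have h1 : Fr.card = (Finset.univ.filter fun k : Fin r =>
        k ∉ Finset.univ.image cl).card :=
      Finset.card_image_of_injective _ (Option.some_injective _)
    have h2 : (Finset.univ.filter fun k : Fin r => k ∈ Finset.univ.image cl).card = S.card := by
      have h3 : (Finset.univ.filter fun k : Fin r => k ∈ Finset.univ.image cl) =
          Finset.univ.image cl := by
        ext k; simp
      rw [h3, Finset.card_image_of_injective _ hclinj, Finset.card_univ, Fintype.card_coe]
    have := Finset.card_filter_add_card_filter_not (s := (Finset.univ : Finset (Fin r)))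
      (fun k => k ∈ Finset.univ.image cl)
    rw [Finset.card_univ, Fintype.card_fin] at this
    rw [h1]
    omega
  have hmaps : ∀ i ∈ Eᶜ, cls i ∈ Fr := by
    intro i hi
    have h1 := hgt i (Finset.mem_compl.1 hi)
    cases hc : cls i with
    | none => exact absurd h1 (not_lt.2 (hVc i hc))
    | some k =>
      refine Finset.mem_image_of_mem _ (Finset.mem_filter.2 ⟨Finset.mem_univ _, ?_⟩)
      intro hk
      obtain ⟨t, -, ht⟩ := Finset.mem_image.1 hk
      have h3 := hV1 t i k (ht ▸ hcl t) hc
        ((ValuationSubring.valuation_le_one_iff _ _).2 (hVx t t.2))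
      exact absurd h1 (not_lt.2 h3)
  have hEc : Eᶜ.card + E.card = n := by
    have := Finset.card_compl_add_card E
    rwa [Fintype.card_fin] at this
  obtain ⟨i, hi, j, hj, hij, hcls⟩ := Finset.exists_ne_map_eq_of_card_lt_of_maps_to
    (s := Eᶜ) (t := Fr) (by omega) (f := cls) hmaps
  obtain ⟨k, -, hk⟩ := Finset.mem_image.1 (hmaps i hi)
  exact ⟨i, j, k, Finset.mem_compl.1 hi, Finset.mem_compl.1 hj, hij, hk.symm,
    hcls.symm.trans hk.symm⟩

/-- the modular equation of two coordinates in one class -/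
theorem psiE_of_locus {Λ : Type} [CommRing Λ] {f : Λ →+* ℂ} {n r : ℕ}
    (Z : Pool.Agent.Y152.RP.Fam.SpecialVariety f n r) {x : Fin n → ℂ} (hx : x ∈ Z.locus)
    {i i' : Fin n} {k : Fin r} (hi : Z.cls i = some k) (hi' : Z.cls i' = some k) :
    ∃ N, 0 < N ∧ PsiE ιZ (mP N) (mD N) (x i) (x i') = 0 := by
  have hdet := Z.det_pos i
  have hdet' := Z.det_pos i'
  obtain ⟨z, hz⟩ := hx
  obtain ⟨w, hw, hxw⟩ := (hz i).2 k hi
  obtain ⟨w', hw', hxw'⟩ := (hz i').2 k hi'
  obtain ⟨a, b, c, d, e1, e2⟩ := Pool.Agent.W282.ZP.isogeny_rel (Z.det_pos i) hw hw'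
  have hN : 0 < a * d - b * c := by
    rw [e1]
    exact mul_pos hdet hdet'
  have hN1 : 0 < (a * d - b * c).toNat := by omega
  have hN' : ((a * d - b * c).toNat : ℤ) = a * d - b * c := Int.toNat_of_nonneg hN.le
  obtain ⟨_, _, _, _, _, _, _, _, _, _, h5⟩ := modular_spec _ hN1
  have h6 := h5 w w' a b c d hN'.symm e2
  rw [← hxw, ← hxw'] at h6
  exact ⟨_, hN1, h6⟩

end Pool.Agent.Q170.HD
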