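import Pool.Agent.Q170.HD.Loc
import Pool.Agent.Q170.HD.Core
import Pool.Agent.Q170.UM.CritB

/-!
# Project HD: good places near to a degenerate member
-/

set_option autoImplicit false

open MvPolynomial UpperHalfPlane H294ZP

namespace Pool.Agent.Q170.HD

open Pool.Agent.Y226 Pool.Agent.Q208.HD
open Pool.Agent.Q170.UM (MinLev exists_minLev)
open Pool.Agent.Q170.ZP.Multi (evM ev_smul evM_int evM_apply)

/-- the valuation ring of the elements of norm at most one -/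
def vr {C : Type} [NormedField C] [IsUltrametricDist C] (φ : ℂ →+* C) : ValuationSubring ℂ where
  toSubring := ball φ
  mem_or_inv_mem' := by
    intro x
    change ‖φ x‖ ≤ 1 ∨ ‖φ x⁻¹‖ ≤ 1
    rw [map_inv₀, norm_inv]
    by_cases h : ‖φ x‖ ≤ 1
    · exact Or.inl h
    · push Not at h
      exact Or.inr (inv_le_one_of_one_le₀ h.le)

section vr

variable {C : Type} [NormedField C] [IsUltrametricDist C] (φ : ℂ →+* C)

theorem mem_vr {x : ℂ} : x ∈ vr φ ↔ ‖φ x‖ ≤ 1 := Iff.rfl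

theorem v_le {x : ℂ} : (vr φ).valuation x ≤ 1 ↔ ‖φ x‖ ≤ 1 :=
  ValuationSubring.valuation_le_one_iff _ _

theorem v_gt {x : ℂ} : 1 < (vr φ).valuation x ↔ 1 < ‖φ x‖ := by
  rw [← not_le, ← not_le, v_le]

theorem v_ge {x : ℂ} : 1 ≤ (vr φ).valuation x ↔ 1 ≤ ‖φ x‖ := by
  by_cases hx : x = 0
  · subst hx
    simp
  · have h1 := v_le φ (x := x⁻¹)
    rw [map_inv₀, map_inv₀, norm_inv] at h1
    have h2 : 0 < ‖φ x‖ := norm_pos_iff.2 ((map_ne_zero φ).2 hx)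
    have h3 : (vr φ).valuation x ≠ 0 := ((vr φ).valuation.ne_zero_iff).2 hx
    rw [inv_le_one₀ h2] at h1
    rw [← h1]
    exact (inv_le_one₀ (zero_lt_iff.2 h3)).symm

theorem v_lt {x : ℂ} : (vr φ).valuation x < 1 ↔ ‖φ x‖ < 1 := by
  rw [← not_le, ← not_le, v_ge]

theorem v_eq {x : ℂ} : (vr φ).valuation x = 1 ↔ ‖φ x‖ = 1 := by
  rw [le_antisymm_iff, le_antisymm_iff, v_le, v_ge]

end vr


/-- two coordinates outside of every small set are connected by an isogeny -/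
def Coll {n : ℕ} (m : ℕ) (Γ : Finset QA) (x : Fin n → ℂ) (S : Finset (Fin n)) : Prop :=
  ∀ V : ValuationSubring ℂ, (∀ γ ∈ Γ, rA γ ∈ V) → (∀ i ∈ S, x i ∈ V) →
    ∀ E' : Finset (Fin n), E'.card ≤ m → (∀ i, i ∉ E' → 1 < V.valuation (x i)) →
    ∃ i j, i ∉ E' ∧ j ∉ E' ∧ i ≠ j ∧ ∃ N, 0 < N ∧ PsiE ιZ (mP N) (mD N) (x i) (x j) = 0

theorem arith3 {N₀ D₁ a p₁ p₂ g₁ g₂ g₃ s₁ s₂ k₃ : ℕ} (ha : 0 < a) (hp₁ : p₁.Prime)
    (hp₂ : p₂.Prime) (h12 : p₁ < p₂) (hk : 0 < k₃) (h1 : N₀ = a * (g₁ * p₁ ^ s₁) ^ 2)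
    (h2 : N₀ = a * (g₂ * p₂ ^ s₂) ^ 2) (h3 : N₀ = a * (g₃ * k₃) ^ 2) (hb₁ : g₁ ≤ p₁ ^ D₁)
    (hb₂ : g₂ ≤ p₂ ^ D₁) (hg₂ : 0 < g₂) : g₃ ≤ p₂ ^ (2 * D₁) := by
  have e1 : g₁ * p₁ ^ s₁ = g₂ * p₂ ^ s₂ := by
    have h := Nat.eq_of_mul_eq_mul_left ha (h1.symm.trans h2)
    exact Nat.pow_left_injective (by norm_num : (2 : ℕ) ≠ 0) h
  have e2 : g₁ * p₁ ^ s₁ = g₃ * k₃ := by
    have h := Nat.eq_of_mul_eq_mul_left ha (h1.symm.trans h3)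
    exact Nat.pow_left_injective (by norm_num : (2 : ℕ) ≠ 0) h
  have h4 : p₁ ^ s₁ ∣ g₂ := by
    have h5 : p₁ ^ s₁ ∣ g₂ * p₂ ^ s₂ := e1 ▸ Dvd.intro_left _ rfl
    refine Nat.Coprime.dvd_of_dvd_mul_right ?_ h5
    exact Nat.Coprime.pow _ _ ((Nat.coprime_primes hp₁ hp₂).2 h12.ne)
  have h5 := (Nat.le_of_dvd hg₂ h4).trans hb₂
  calc g₃ ≤ g₃ * k₃ := Nat.le_mul_of_pos_right _ hk
    _ = g₁ * p₁ ^ s₁ := e2.symm
    _ ≤ p₁ ^ D₁ * p₂ ^ D₁ := Nat.mul_le_mul hb₁ h5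
    _ ≤ p₂ ^ D₁ * p₂ ^ D₁ := Nat.mul_le_mul_right _ (Nat.pow_le_pow_left h12.le _)
    _ = p₂ ^ (2 * D₁) := by rw [two_mul, pow_add]

theorem exists_three {α : Type*} [LinearOrder α] (s : Finset α) (h : 2 < s.card) :
    ∃ a ∈ s, ∃ b ∈ s, ∃ c ∈ s, a < b ∧ b < c := by
  refine ⟨s.orderEmbOfFin rfl ⟨0, by omega⟩, s.orderEmbOfFin_mem rfl _,
    s.orderEmbOfFin rfl ⟨1, by omega⟩, s.orderEmbOfFin_mem rfl _,
    s.orderEmbOfFin rfl ⟨2, by omega⟩, s.orderEmbOfFin_mem rfl _, ?_, ?_⟩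
  · exact (s.orderEmbOfFin rfl).strictMono (by simp [Fin.lt_def])
  · exact (s.orderEmbOfFin rfl).strictMono (by simp [Fin.lt_def])

/-- threshold for the integrality of a finite set -/
noncomputable def thr (W : Finset QA) : ℕ := W.sup fun w => (integral_large w).choose

theorem thr_spec {W : Finset QA} {p : ℕ} [Fact p.Prime] (h : thr W < p) {C : Type}
    [NormedField C] [IsUltrametricDist C] (φ : ℂ →+* C) (hp : ‖(p : C)‖ < 1) :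
    ∀ w ∈ W, ‖φ (rA w)‖ ≤ 1 := by
  intro w hw
  have h1 := (integral_large w).choose_spec p
    (lt_of_le_of_lt (Finset.le_sup (f := fun w => (integral_large w).choose) hw) h) C
    (φ.comp rA) hp
  exact h1

section B

variable {r N n m : ℕ} {κ : Type}
    [Fintype κ] (G : κ → Fo r N) (hG : ∀ k, ∃ f, (G k).IsHomogeneous f)
    (A B : Fin n → Fo r N) (d : Fin n → ℕ) (hd : ∀ i, 0 < d i)
    (hA : ∀ i, (A i).IsHomogeneous (d i)) (hB : ∀ i, (B i).IsHomogeneous (d i))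
    (b c : Fin n → MvPolynomial (Fin r) QA) (D E : MvPolynomial (Fin r) ℤ)
    (e : Fin n → ℕ) (he : ∀ i, 0 < e i)
    (hc : ∀ i, c i = MvPolynomial.map (Int.castRingHom QA) D ^ e i * b i)
    (hpos : ∀ t : Fin r → ℂ, aeval t D = 0 → aeval t E ≠ 0 →
      (∀ I : Finset (Fin n), I.card = m + 1 → ∀ y : Fin (N + 1) → ℂ,
        (∀ k, vf t y (G k) = 0) → (∀ i ∈ I, vf t y (A i) * vf t y (B i) = 0) → y = 0) ∧
      ∀ i, evM QA t (b i) ≠ 0)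
    (Fm : ℕ → MvPolynomial (Fin r) ℤ)
    (hres : ∀ M : ℕ, 0 < M → ∀ t : Fin r → ℂ, aeval t D = 0 → aeval t E ≠ 0 →
      aeval t (Fm M) ≠ 0 → ∀ I : Finset (Fin n), I.card = m → ∀ i j : Fin n, i ∉ I → j ∉ I →
      i ≠ j → ∀ y : Fin (N + 1) → ℂ, y ≠ 0 → (∀ k, vf t y (G k) = 0) →
      (∀ k ∈ I, vf t y (A k) * vf t y (B k) = 0) →
      (vf t y (A i) ^ e j * (evM QA t (b j) * vf t y (B j)) ^ e i) ^ M ≠
        (vf t y (A j) ^ e i * (evM QA t (b i) * vf t y (B i)) ^ e j) ^ M)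

include hG hd hA hB he hc hpos hres in
/-- A good place near to the hypersurface `D = 0`: less than `m` coordinates are not large. -/
theorem locB (hEMB : S_EMB) (hCERT : S_CERT) (hFINR : S_FINR) (hPAIR : S_PAIR)
    (Γ : Finset QA) :
    ∃ (Φ : ℕ → ℕ) (D₁ : ℕ), ∀ t : Fin r → ℤ, Chain (2 * n ^ 2 + 1) Φ (eval t D)
      (fun q => eval t (E * ∏ M ∈ Finset.Icc 1 (q ^ (2 * D₁)), Fm M)) →
      ∀ (x : Fin n → ℂ) (y : Fin (N + 1) → ℂ), y ≠ 0 → (∀ k, vf (tc t) y (G k) = 0) →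
      (∀ i, evM QA (tc t) (c i) * vf (tc t) y (B i) * x i = vf (tc t) y (A i)) →
      ∀ S : Finset (Fin n), AlgebraicIndependent QA (fun i : S => x i) → Coll m Γ x S →
      ∃ V : ValuationSubring ℂ, V.valuation (aeval (tc t) D) < 1 ∧ (∀ γ ∈ Γ, rA γ ∈ V) ∧
        (∀ i ∈ S, x i ∈ V) ∧ ∃ E' : Finset (Fin n), E'.card < m ∧ ∀ i, i ∉ E' →
          V.valuation (x i) * V.valuation (aeval (tc t) D) ^ e i = 1 := by
  classical
  obtain ⟨W, D₁, WM, hloc⟩ := locA hCERT hFINR hPAIR G hG A B d hd hA hB b c D E e he hc hpos Fm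
    hres
  obtain ⟨Φ, hΦ⟩ : ∃ Φ : ℕ → ℕ, ∀ q, thr (W ∪ Γ) ≤ Φ q ∧ q ≤ Φ q ∧
      ∀ M ∈ Finset.Icc 1 (q ^ (2 * D₁)), thr (WM M) ≤ Φ q := by
    refine ⟨fun q => thr (W ∪ Γ) + q + ∑ M ∈ Finset.Icc 1 (q ^ (2 * D₁)), thr (WM M), fun q =>
      ⟨?_, ?_, fun M hM => ?_⟩⟩
    · simp only
      omega
    · simp only
      omega
    · have h1 := Finset.single_le_sum (f := fun M => thr (WM M)) (fun _ _ => Nat.zero_le _) hM
      simp only at h1 ⊢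
      omega
  refine ⟨Φ, D₁, ?_⟩
  intro t hch x y hy0 hyG hxy S hS hcoll
  by_contra hcon
  -- one prime
  have hone : ∀ p : ℕ, p.Prime → thr (W ∪ Γ) < p → (p : ℤ) ∣ eval t D → ¬ (p : ℤ) ∣ eval t E →
      ∃ i j, (∃ N, 0 < N ∧ PsiE ιZ (mP N) (mD N) (x i) (x j) = 0) ∧
        ∀ N₀, MinLev N₀ (x i) (x j) → ∃ g s : ℕ, 0 < g ∧ g.Coprime p ∧
            N₀ = (e j / Nat.gcd (e i) (e j)) * (e i / Nat.gcd (e i) (e j)) * (g * p ^ s) ^ 2 ∧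
            g ≤ p ^ D₁ ∧ ∀ M, 0 < M → thr (WM M) < p →
              ¬ (p : ℤ) ∣ eval t (Fm M) → ¬ g ∣ M := by
    intro p hp hpW hpD hpE
    have : Fact p.Prime := ⟨hp⟩
    obtain ⟨C, _, _, _, _, _, φ, hφp, hφS⟩ := hEMB p n x S hS
    have hp1 : ‖(p : C)‖ < 1 := by
      rw [hφp]
      exact inv_lt_one_of_one_lt₀ (by exact_mod_cast hp.one_lt)
    have hp0 : 0 < ‖(p : C)‖ := by
      rw [hφp]
      exact inv_pos.2 (by exact_mod_cast hp.pos)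
    have hWΓ := thr_spec hpW φ hp1
    obtain ⟨E', hE'm, hE'x, hE'r⟩ := hloc C p φ hp0 hp1
      (fun w hw => hWΓ w (Finset.mem_union_left _ hw)) t hpD hpE x y hy0 hyG hxy
    have hDp : ‖φ (aeval (tc t) D)‖ < 1 := by
      rw [aeval_tc, map_intCast]
      exact norm_int_lt hp1 hpD
    have hgt : ∀ i, i ∉ E' → 1 < ‖φ (x i)‖ := by
      intro i hi
      have h1 := hE'x i hi
      by_contra h
      push Not at h
      have h2 : ‖φ (x i)‖ * ‖φ (aeval (tc t) D)‖ ^ e i < 1 :=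
        (mul_le_of_le_one_left (pow_nonneg (norm_nonneg _) _) h).trans_lt
          (pow_lt_one₀ (norm_nonneg _) hDp (he i).ne')
      rw [h1] at h2
      exact lt_irrefl _ h2
    have hcard : E'.card = m := by
      by_contra hne
      apply hcon
      refine ⟨vr φ, (v_lt φ).2 hDp, fun γ hγ => hWΓ γ (Finset.mem_union_right _ hγ),
        fun i hi => hφS i hi, E', by omega, fun i hi => ?_⟩
      rw [← map_pow, ← map_mul, v_eq, map_mul, map_pow, norm_mul, norm_pow]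
      exact hE'x i hi
    obtain ⟨i, j, hi, hj, hij, hN⟩ := hcoll (vr φ)
      (fun γ hγ => hWΓ γ (Finset.mem_union_right _ hγ)) (fun i hi => hφS i hi) E' hE'm
      (fun i hi => (v_gt φ).2 (hgt i hi))
    refine ⟨i, j, hN, fun N₀ hN₀ => ?_⟩
    obtain ⟨g, s, h1, h2, h3, h4, h5⟩ := hE'r hcard i j hi hj hij N₀ hN₀
    exact ⟨g, s, h1, h2, h3, h4, fun M hM hMp hF => h5 M hM (thr_spec hMp φ hp1) hF⟩
  obtain ⟨pp, hpp, hpp2⟩ := hch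
  have hprime : ∀ ν, (pp ν).Prime := fun ν => (hpp ν).1
  have hppW : ∀ ν, thr (W ∪ Γ) < pp ν := fun ν => by
    exact lt_of_le_of_lt (hΦ 0).1 (hpp ν).2.2.1
  have hdvdE : ∀ (p : ℕ) (q : ℕ), ¬ (p : ℤ) ∣ eval t (E * ∏ M ∈ Finset.Icc 1 (q ^ (2 * D₁)), Fm M) →
      ¬ (p : ℤ) ∣ eval t E := by
    intro p q h h'
    exact h (by rw [map_mul]; exact Dvd.dvd.mul_right h' _)
  have hdvdF : ∀ (p : ℕ) (q M : ℕ), 0 < M → M ≤ q ^ (2 * D₁) →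
      ¬ (p : ℤ) ∣ eval t (E * ∏ M ∈ Finset.Icc 1 (q ^ (2 * D₁)), Fm M) →
      ¬ (p : ℤ) ∣ eval t (Fm M) := by
    intro p q M hM hMq h h'
    apply h
    rw [map_mul, map_prod]
    exact Dvd.dvd.mul_left (h'.trans (Finset.dvd_prod_of_mem (fun M => eval t (Fm M))
      (Finset.mem_Icc.2 ⟨hM, hMq⟩))) _
  choose fi fj hN hMin using fun ν => hone (pp ν) (hprime ν) (hppW ν) (hpp ν).2.1
    (hdvdE _ _ (hpp ν).2.2.2)
  -- three primes with the same pair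
  obtain ⟨q, hq⟩ := Fintype.exists_lt_card_fiber_of_mul_lt_card (n := 2)
    (fun ν : Fin (2 * n ^ 2 + 1) => (fi ν, fj ν)) (by
      rw [Fintype.card_prod, Fintype.card_fin, Fintype.card_fin]
      nlinarith)
  obtain ⟨ν₁, h1, ν₂, h2, ν₃, h3, h12, h23⟩ := exists_three _ hq
  obtain ⟨e1i, e1j⟩ := Prod.mk.inj (((Finset.mem_filter.1 h1).2).trans (Finset.mem_filter.1 h3).2.symm)
  obtain ⟨e2i, e2j⟩ := Prod.mk.inj (((Finset.mem_filter.1 h2).2).trans (Finset.mem_filter.1 h3).2.symm)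
  obtain ⟨N₀, hN₀⟩ := exists_minLev (hN ν₃)
  obtain ⟨g₁, s₁, hg₁, -, hn₁, hb₁, -⟩ := hMin ν₁ N₀ (by rw [e1i, e1j]; exact hN₀)
  obtain ⟨g₂, s₂, hg₂, -, hn₂, hb₂, -⟩ := hMin ν₂ N₀ (by rw [e2i, e2j]; exact hN₀)
  obtain ⟨g₃, s₃, hg₃, -, hn₃, -, hcert⟩ := hMin ν₃ N₀ hN₀
  rw [e1i, e1j] at hn₁
  rw [e2i, e2j] at hn₂
  have hp12 : pp ν₁ < pp ν₂ := lt_of_le_of_lt (hΦ _).2.1 (hpp2 ν₁ ν₂ h12).1
  have hle : g₃ ≤ pp ν₂ ^ (2 * D₁) := by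
    refine arith3 ?_ (hprime ν₁) (hprime ν₂) hp12 (pow_pos (hprime ν₃).pos s₃) hn₁ hn₂ hn₃ hb₁
      hb₂ hg₂
    have h0 := Nat.gcd_pos_of_pos_left (e (fj ν₃)) (he (fi ν₃))
    exact Nat.mul_pos (Nat.div_pos (Nat.le_of_dvd (he _) (Nat.gcd_dvd_right _ _)) h0)
      (Nat.div_pos (Nat.le_of_dvd (he _) (Nat.gcd_dvd_left _ _)) h0)
  refine hcert g₃ hg₃ ?_ ?_ dvd_rfl
  · exact lt_of_le_of_lt ((hΦ (pp ν₂)).2.2 g₃ (Finset.mem_Icc.2 ⟨hg₃, hle⟩))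
      (hpp2 ν₂ ν₃ h23).1
  · exact hdvdF _ (pp ν₂) g₃ hg₃ hle (hpp2 ν₂ ν₃ h23).2

end B

end Pool.Agent.Q170.HD
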