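import Pool.Agent.Q170.HD.FinV
import Pool.Agent.Q170.HD.Main

/-!
# Project HD: the translates `t ^ e X` of one subvariety: no resonance
-/

set_option autoImplicit false

open MvPolynomial H294ZP

namespace Pool.Agent.Q170.HD

open Pool.Agent.Y226
open Pool.Agent.Q170.ZP (IndExp Sq Smo)
open Pool.Agent.Q170.ZP.Multi (evM)

/-- `P ^ d μ (Q / P)` as a polynomial -/
noncomputable def hom {R : Type*} [CommRing R] (μ : Polynomial ℤ) (P Q : R) : R :=
  ∑ k ∈ Finset.range (μ.natDegree + 1), (μ.coeff k : R) * Q ^ k * P ^ (μ.natDegree - k)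

theorem map_hom {R S : Type*} [CommRing R] [CommRing S] (f : R →+* S) (μ : Polynomial ℤ) (P Q : R) :
    f (hom μ P Q) = hom μ (f P) (f Q) := by
  unfold hom
  rw [map_sum]
  refine Finset.sum_congr rfl fun k _ => ?_
  rw [map_mul, map_mul, map_pow, map_pow, map_intCast]

theorem hom_eq {R : Type*} [Field R] (μ : Polynomial ℤ) {P : R} (hP : P ≠ 0) (Q : R) :
    hom μ P Q = P ^ μ.natDegree * Polynomial.aeval (Q / P) μ := by
  unfold hom
  rw [Polynomial.aeval_eq_sum_range, Finset.mul_sum]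
  refine Finset.sum_congr rfl fun k hk => ?_
  have hk' : k ≤ μ.natDegree := by
    have := Finset.mem_range.1 hk
    omega
  obtain ⟨u, hu⟩ : ∃ u, μ.natDegree = k + u := ⟨μ.natDegree - k, by omega⟩
  rw [hu, Nat.add_sub_cancel_left, zsmul_eq_mul, div_pow, pow_add]
  field_simp

/-- an integral polynomial which vanishes at the `M`-th powers of the roots -/
theorem exists_mu (χ : Polynomial QA) (hχ : χ.Monic) (M : ℕ) :
    ∃ μ : Polynomial ℤ, μ ≠ 0 ∧ ∀ v : ℂ, Polynomial.aeval v χ = 0 →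
      Polynomial.aeval (v ^ M) μ = 0 := by
  classical
  have halg : ∀ v : ℂ, Polynomial.aeval v χ = 0 → IsAlgebraic ℤ (v ^ M) := by
    intro v hv
    have h1 : IsAlgebraic QA v := ⟨χ, hχ.ne_zero, hv⟩
    have h2 : IsAlgebraic ℚ v := h1.restrictScalars ℚ
    exact algZ (h2.pow M)
  let S := (χ.map (algebraMap QA ℂ)).roots.toFinset
  have hS : ∀ v : ℂ, v ∈ S ↔ Polynomial.aeval v χ = 0 := by
    intro v
    rw [Multiset.mem_toFinset, Polynomial.mem_roots (hχ.map _).ne_zero, Polynomial.IsRoot.def,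
      Polynomial.eval_map, Polynomial.aeval_def]
  choose! g hg0 hg using halg
  refine ⟨∏ v ∈ S, g v, Finset.prod_ne_zero_iff.2 fun v hv => hg0 v ((hS v).1 hv), fun v hv => ?_⟩
  rw [map_prod]
  exact Finset.prod_eq_zero ((hS v).2 hv) (hg v hv)

/-- the value at a special point is not zero -/
theorem exists_tau (μ : Polynomial ℤ) (hμ : μ ≠ 0) {p q : ℕ} (hpq : p ≠ q) :
    ∃ τ : ℚ, τ ≠ 0 ∧ Polynomial.aeval (τ ^ q / τ ^ p) μ ≠ 0 := by
  classical
  by_contra hcon
  push Not at hcon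
  have hinj : Function.Injective fun k : ℕ => ((k : ℚ) + 2) ^ q / ((k : ℚ) + 2) ^ p := by
    intro k k' h
    simp only at h
    have hk : (0 : ℚ) < (k : ℚ) + 2 := by positivity
    have hk' : (0 : ℚ) < (k' : ℚ) + 2 := by positivity
    rcases lt_or_gt_of_ne hpq with h1 | h1
    · obtain ⟨u, hu⟩ : ∃ u, q = p + (u + 1) := ⟨q - p - 1, by omega⟩
      have e1 : ∀ x : ℚ, 0 < x → x ^ q / x ^ p = x ^ (u + 1) := by
        intro x hx
        rw [hu, pow_add, mul_div_cancel_left₀ _ (pow_pos hx p).ne']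
      rw [e1 _ hk, e1 _ hk'] at h
      have h2 := (pow_left_inj₀ hk.le hk'.le (Nat.succ_ne_zero u)).1 h
      have h3 : (k : ℚ) = k' := by linarith
      exact_mod_cast h3
    · obtain ⟨u, hu⟩ : ∃ u, p = q + (u + 1) := ⟨p - q - 1, by omega⟩
      have e1 : ∀ x : ℚ, 0 < x → x ^ q / x ^ p = (x ^ (u + 1))⁻¹ := by
        intro x hx
        rw [hu, pow_add, ← div_div, div_self (pow_pos hx q).ne', one_div]
      rw [e1 _ hk, e1 _ hk', inv_inj] at h
      have h2 := (pow_left_inj₀ hk.le hk'.le (Nat.succ_ne_zero u)).1 h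
      have h3 : (k : ℚ) = k' := by linarith
      exact_mod_cast h3
  have hμ' : μ.map (Int.castRingHom ℚ) ≠ 0 := (Polynomial.map_ne_zero_iff Int.cast_injective).2 hμ
  refine Set.infinite_range_of_injective hinj ?_
  refine ((μ.map (Int.castRingHom ℚ)).roots.toFinset.finite_toSet).subset ?_
  rintro _ ⟨k, rfl⟩
  rw [Finset.mem_coe, Multiset.mem_toFinset, Polynomial.mem_roots hμ', Polynomial.IsRoot.def,
    Polynomial.eval_map]
  exact hcon _ (by positivity)

section torus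

variable {N n m L : ℕ} {κ : Type} [Fintype κ] (G : κ → MvPolynomial (Fin (N + 1)) QA)
    (hG : ∀ k, ∃ f, (G k).IsHomogeneous f)
    (A B : Fin n → MvPolynomial (Fin (N + 1)) QA) (d : Fin n → ℕ) (hd : ∀ i, 0 < d i)
    (hA : ∀ i, (A i).IsHomogeneous (d i)) (hB : ∀ i, (B i).IsHomogeneous (d i))
    (e : Fin L → Fin n → ℕ) (he : IndExp 1 e) (hL : 2 ≤ L)
    (hpos : ∀ I : Finset (Fin n), I.card = m + 1 → ∀ y : Fin (N + 1) → ℂ,
        (∀ k, aeval y (G k) = 0) → (∀ i ∈ I, aeval y (A i) * aeval y (B i) = 0) → y = 0)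

include he in
theorem exp_ne {l l₁ : Fin L} (hl : l₁ ≠ l) {i j : Fin n} (hij : i ≠ j) :
    e l₁ j * e l i ≠ e l₁ i * e l j := by
  classical
  intro h
  refine he.2 {(l₁, j), (l, i), (l₁, i), (l, j)} ⟨_, Finset.mem_insert_self _ _⟩ ?_
  rw [Finset.prod_insert (by simp [hl, hij.symm]), Finset.prod_insert (by simp [hl.symm, hij]),
    Finset.prod_insert (by simp [hl]), Finset.prod_singleton]
  have h1 : e l₁ j * (e l i * (e l₁ i * e l j)) = (e l₁ i * e l j) * (e l₁ i * e l j) := by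
    rw [← mul_assoc, h]
  rw [h1]
  exact Sq.sq _ _

include hG hd hA hB he hL hpos in
/-- no resonance at one stratum -/
theorem torus_one (l : Fin L) (M : ℕ) (hM : 0 < M) (i j : Fin n) (hij : i ≠ j)
    (I : Finset (Fin n)) (hI : I.card = m) (hi : i ∉ I) (hj : j ∉ I) :
    ∃ F : MvPolynomial (Fin L) ℤ, IsRelPrime
      (MvPolynomial.map (Int.castRingHom ℚ) (X l : MvPolynomial (Fin L) ℤ))
      (MvPolynomial.map (Int.castRingHom ℚ) F) ∧
      ∀ t : Fin L → ℂ, (∀ l', l' ≠ l → t l' ≠ 0) → aeval t F ≠ 0 →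
      ∀ y : Fin (N + 1) → ℂ, y ≠ 0 → (∀ k, aeval y (G k) = 0) →
      (∀ k ∈ I, aeval y (A k) * aeval y (B k) = 0) →
      (aeval y (A i) ^ e l j *
        ((∏ l' ∈ Finset.univ.erase l, t l' ^ e l' j) * aeval y (B j)) ^ e l i) ^ M ≠
      (aeval y (A j) ^ e l i *
        ((∏ l' ∈ Finset.univ.erase l, t l' ^ e l' i) * aeval y (B i)) ^ e l j) ^ M := by
  classical
  obtain ⟨l₁, hl₁⟩ : ∃ l₁ : Fin L, l₁ ≠ l := by
    by_cases h : l = ⟨0, by omega⟩
    · exact ⟨⟨1, by omega⟩, fun h' => by simp [h, Fin.ext_iff] at h'⟩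
    · exact ⟨⟨0, by omega⟩, fun h' => h h'.symm⟩
  have hnz : ∀ y : Fin (N + 1) → ℂ, y ≠ 0 → (∀ k, aeval y (G k) = 0) →
      (∀ k ∈ I, aeval y (A k) * aeval y (B k) = 0) → ∀ u, u ∉ I →
      aeval y (A u) ≠ 0 ∧ aeval y (B u) ≠ 0 := by
    intro y hy0 hyG hyI u hu
    rw [← mul_ne_zero_iff]
    intro h
    refine hy0 (hpos (insert u I) (by rw [Finset.card_insert_of_notMem hu, hI]) y hyG ?_)
    intro k hk
    rcases Finset.mem_insert.1 hk with rfl | hk
    · exact h
    · exact hyI k hk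
  -- the values
  let P₁ : MvPolynomial (Fin (N + 1)) QA := A i ^ e l j * B j ^ e l i
  let P₂ : MvPolynomial (Fin (N + 1)) QA := A j ^ e l i * B i ^ e l j
  let δ := d i * e l j + d j * e l i
  have hδ : 0 < δ := Nat.add_pos_left (Nat.mul_pos (hd i) (he.1 l j)) _
  have hP₁ : P₁.IsHomogeneous δ := ((hA i).pow _).mul ((hB j).pow _)
  have hP₂ : P₂.IsHomogeneous δ := by
    have h1 := ((hA j).pow (e l i)).mul ((hB i).pow (e l j))
    rwa [add_comm (d j * e l i)] at h1
  let F : κ ⊕ I → MvPolynomial (Fin (N + 1)) QA := Sum.elim G fun k => A k * B k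
  have hF : ∀ b, ∃ f, (F b).IsHomogeneous f := by
    rintro (k | k)
    · exact hG k
    · exact ⟨_, (hA k).mul (hB k)⟩
  obtain ⟨χ, hχ, hχv⟩ := fin_values hδ F hF P₁ P₂ hP₁ hP₂ (by
    intro y hy hy2
    by_contra hy0
    have h1 := hnz y hy0 (fun k => hy (Sum.inl k)) (fun k hk => by
      have := hy (Sum.inr ⟨k, hk⟩)
      rwa [show F (Sum.inr ⟨k, hk⟩) = A k * B k from rfl, map_mul] at this)
    simp only [P₂, map_mul, map_pow] at hy2
    exact mul_ne_zero (pow_ne_zero _ (h1 j hj).1) (pow_ne_zero _ (h1 i hi).2) hy2)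
  obtain ⟨μ, hμ0, hμ⟩ := exists_mu χ hχ M
  let Pm : MvPolynomial (Fin L) ℤ :=
    (∏ l' ∈ Finset.univ.erase l, X l' ^ e l' j) ^ (e l i * M)
  let Qm : MvPolynomial (Fin L) ℤ :=
    (∏ l' ∈ Finset.univ.erase l, X l' ^ e l' i) ^ (e l j * M)
  refine ⟨hom μ Pm Qm, ?_, ?_⟩
  · rw [MvPolynomial.map_X]
    have hirr : Irreducible (X l : MvPolynomial (Fin L) ℚ) := (MvPolynomial.X_prime).irreducible
    rw [hirr.isRelPrime_iff_not_dvd]
    rintro ⟨w, hw⟩
    obtain ⟨τ, hτ0, hτ⟩ := exists_tau μ hμ0 (p := e l₁ j * (e l i * M))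
      (q := e l₁ i * (e l j * M)) (by
        rw [← mul_assoc, ← mul_assoc]
        intro h
        exact exp_ne e he hl₁ hij (Nat.eq_of_mul_eq_mul_right hM h))
    let s : Fin L → ℚ := fun l' => if l' = l then 0 else if l' = l₁ then τ else 1
    have hs : ∀ u : Fin n, ∏ l' ∈ Finset.univ.erase l, s l' ^ e l' u = τ ^ e l₁ u := by
      intro u
      rw [Finset.prod_eq_single l₁]
      · simp [s, hl₁]
      · intro l' hl' hne
        have := (Finset.mem_erase.1 hl').1
        simp [s, this, hne]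
      · intro h
        exact absurd (Finset.mem_erase.2 ⟨hl₁, Finset.mem_univ _⟩) h
    have h1 := congrArg (eval s) hw
    rw [map_hom, map_hom, map_mul, eval_X] at h1
    have h2 : s l = 0 := by simp [s]
    rw [h2, zero_mul] at h1
    have h3 : eval s (MvPolynomial.map (Int.castRingHom ℚ) Pm) = τ ^ (e l₁ j * (e l i * M)) := by
      simp only [Pm, map_pow, map_prod, MvPolynomial.map_X, eval_X]
      rw [hs, ← pow_mul]
    have h4 : eval s (MvPolynomial.map (Int.castRingHom ℚ) Qm) = τ ^ (e l₁ i * (e l j * M)) := by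
      simp only [Qm, map_pow, map_prod, MvPolynomial.map_X, eval_X]
      rw [hs, ← pow_mul]
    rw [h3, h4, hom_eq μ (pow_ne_zero _ hτ0)] at h1
    exact mul_ne_zero (pow_ne_zero _ (pow_ne_zero _ hτ0)) hτ h1
  · intro t ht hFt y hy0 hyG hyI heq
    have hnI := hnz y hy0 hyG hyI
    have e1 : aeval t (hom μ Pm Qm) = hom μ (aeval t Pm) (aeval t Qm) :=
      map_hom (aeval t : MvPolynomial (Fin L) ℤ →ₐ[ℤ] ℂ).toRingHom μ Pm Qm
    have e2 : aeval t Pm = (∏ l' ∈ Finset.univ.erase l, t l' ^ e l' j) ^ (e l i * M) := by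
      simp only [Pm, map_pow, map_prod, aeval_X]
    have e3 : aeval t Qm = (∏ l' ∈ Finset.univ.erase l, t l' ^ e l' i) ^ (e l j * M) := by
      simp only [Qm, map_pow, map_prod, aeval_X]
    have hbj : (∏ l' ∈ Finset.univ.erase l, t l' ^ e l' j) ≠ 0 :=
      Finset.prod_ne_zero_iff.2 fun l' hl' => pow_ne_zero _ (ht l' (Finset.mem_erase.1 hl').1)
    have hv : Polynomial.aeval (aeval y P₁ / aeval y P₂) χ = 0 := by
      refine hχv y ?_ ?_
      · rintro (k | k)
        · exact hyG k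
        · change aeval y (A k * B k) = 0
          rw [map_mul]
          exact hyI k k.2
      · simp only [P₂, map_mul, map_pow]
        exact mul_ne_zero (pow_ne_zero _ (hnI j hj).1) (pow_ne_zero _ (hnI i hi).2)
    apply hFt
    rw [e1, e2, e3, hom_eq μ (pow_ne_zero _ hbj)]
    have h5 : (∏ l' ∈ Finset.univ.erase l, t l' ^ e l' i) ^ (e l j * M) /
        (∏ l' ∈ Finset.univ.erase l, t l' ^ e l' j) ^ (e l i * M) =
        (aeval y P₁ / aeval y P₂) ^ M := by
      rw [div_pow, div_eq_div_iff (pow_ne_zero _ hbj) ?_]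
      · simp only [P₁, P₂, map_mul, map_pow]
        generalize (∏ l' ∈ Finset.univ.erase l, t l' ^ e l' i) = bi at heq ⊢
        generalize (∏ l' ∈ Finset.univ.erase l, t l' ^ e l' j) = bj at heq ⊢
        calc bi ^ (e l j * M) * (aeval y (A j) ^ e l i * aeval y (B i) ^ e l j) ^ M =
            (aeval y (A j) ^ e l i * (bi * aeval y (B i)) ^ e l j) ^ M := by ring
          _ = (aeval y (A i) ^ e l j * (bj * aeval y (B j)) ^ e l i) ^ M := heq.symm
          _ = _ := by ring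
      · refine pow_ne_zero _ ?_
        simp only [P₂, map_mul, map_pow]
        exact mul_ne_zero (pow_ne_zero _ (hnI j hj).1) (pow_ne_zero _ (hnI i hi).2)
    rw [h5, hμ _ hv, mul_zero]

end torus

end Pool.Agent.Q170.HD
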